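import Mathlib

/-!
# A second moment inequality and weighted sums over self-avoiding paths
-/

open MeasureTheory ProbabilityTheory
open scoped ENNReal NNReal

namespace Pool.Agent.Lib.MP_da416c_pr

/-- A second moment inequality: if `∑ j, P (A i ∩ A j) ≤ G * P (A i)` for all `i`, then
`∑ i, P (A i) ≤ G * P (⋃ i, A i)`. -/
theorem second_moment {Ω : Type*} [MeasurableSpace Ω] (P : Measure Ω) [IsProbabilityMeasure P]
    {ι : Type*} (I : Finset ι) (A : ι → Set Ω) (hA : ∀ i ∈ I, MeasurableSet (A i)) {G : ℝ}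
    (hG : 0 < G) (h : ∀ i ∈ I, ∑ j ∈ I, P.real (A i ∩ A j) ≤ G * P.real (A i)) :
    ∑ i ∈ I, P.real (A i) ≤ G * P.real (⋃ i ∈ I, A i) := by
  classical
  set T : Set Ω := ⋃ i ∈ I, A i with hT
  have hTm : MeasurableSet T := Finset.measurableSet_biUnion _ hA
  set f : ι → Ω → ℝ := fun i => (A i).indicator fun _ => (1 : ℝ) with hf
  set u : Ω → ℝ := T.indicator fun _ => (1 : ℝ) with hu
  have hint : ∀ B : Set Ω, MeasurableSet B → Integrable (B.indicator fun _ => (1 : ℝ)) P :=
    fun B hB => (integrable_const (1 : ℝ)).indicator hB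
  have hval : ∀ B : Set Ω, MeasurableSet B → ∫ ω, B.indicator (fun _ => (1 : ℝ)) ω ∂P = P.real B :=
    fun B hB => by rw [integral_indicator hB]; simp
  have hpoint : ∀ ω, (∑ i ∈ I, f i ω - G * u ω) ^ 2
      = (∑ i ∈ I, ∑ j ∈ I, (A i ∩ A j).indicator (fun _ => (1 : ℝ)) ω)
        - (2 * G) * (∑ i ∈ I, f i ω) + G ^ 2 * u ω := by
    intro ω
    have h1 : (∑ i ∈ I, f i ω) * (∑ j ∈ I, f j ω)
        = ∑ i ∈ I, ∑ j ∈ I, (A i ∩ A j).indicator (fun _ => (1 : ℝ)) ω := by
      rw [Finset.sum_mul_sum]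
      refine Finset.sum_congr rfl fun i _ => Finset.sum_congr rfl fun j _ => ?_
      simp only [hf, Set.indicator_apply, Set.mem_inter_iff]
      by_cases h2 : ω ∈ A i <;> by_cases h3 : ω ∈ A j <;> simp [h2, h3]
    have h2 : (∑ i ∈ I, f i ω) * u ω = ∑ i ∈ I, f i ω := by
      rw [Finset.sum_mul]
      refine Finset.sum_congr rfl fun i hi => ?_
      simp only [hf, hu, Set.indicator_apply]
      by_cases h3 : ω ∈ A i
      · have : ω ∈ T := Set.mem_biUnion hi h3
        simp [h3, this]
      · simp [h3]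
    have h3 : u ω * u ω = u ω := by
      simp only [hu, Set.indicator_apply]
      by_cases h4 : ω ∈ T <;> simp [h4]
    calc (∑ i ∈ I, f i ω - G * u ω) ^ 2
        = (∑ i ∈ I, f i ω) * (∑ i ∈ I, f i ω) - 2 * G * ((∑ i ∈ I, f i ω) * u ω)
          + G ^ 2 * (u ω * u ω) := by ring
      _ = _ := by rw [h1, h2, h3]
  have hnn : 0 ≤ ∫ ω, (∑ i ∈ I, f i ω - G * u ω) ^ 2 ∂P :=
    integral_nonneg fun ω => sq_nonneg _
  have hI1 : Integrable (fun ω => ∑ i ∈ I, ∑ j ∈ I,
      (A i ∩ A j).indicator (fun _ => (1 : ℝ)) ω) P :=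
    integrable_finsetSum _ fun i hi => integrable_finsetSum _ fun j hj =>
      hint _ ((hA i hi).inter (hA j hj))
  have hI2 : Integrable (fun ω => ∑ i ∈ I, f i ω) P :=
    integrable_finsetSum _ fun i hi => hint _ (hA i hi)
  have hI3 : Integrable u P := hint _ hTm
  have hcalc : ∫ ω, (∑ i ∈ I, f i ω - G * u ω) ^ 2 ∂P
      = (∑ i ∈ I, ∑ j ∈ I, P.real (A i ∩ A j)) - (2 * G) * (∑ i ∈ I, P.real (A i))
        + G ^ 2 * P.real T := by
    have e1 : ∫ ω, ∑ i ∈ I, ∑ j ∈ I, (A i ∩ A j).indicator (fun _ => (1 : ℝ)) ω ∂P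
        = ∑ i ∈ I, ∑ j ∈ I, P.real (A i ∩ A j) := by
      rw [integral_finsetSum _ fun i hi => integrable_finsetSum _ fun j hj =>
        hint _ ((hA i hi).inter (hA j hj))]
      refine Finset.sum_congr rfl fun i hi => ?_
      rw [integral_finsetSum _ fun j hj => hint _ ((hA i hi).inter (hA j hj))]
      exact Finset.sum_congr rfl fun j hj => hval _ ((hA i hi).inter (hA j hj))
    have e2 : ∫ ω, ∑ i ∈ I, f i ω ∂P = ∑ i ∈ I, P.real (A i) := by
      rw [integral_finsetSum _ fun i hi => hint _ (hA i hi)]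
      exact Finset.sum_congr rfl fun i hi => hval _ (hA i hi)
    have e3 : ∫ ω, u ω ∂P = P.real T := hval _ hTm
    have hcongr : ∫ ω, (∑ i ∈ I, f i ω - G * u ω) ^ 2 ∂P
        = ∫ ω, (((∑ i ∈ I, ∑ j ∈ I, (A i ∩ A j).indicator (fun _ => (1 : ℝ)) ω)
        - (2 * G) * (∑ i ∈ I, f i ω)) + G ^ 2 * u ω) ∂P :=
      integral_congr_ae (Filter.Eventually.of_forall hpoint)
    have hJ1 : Integrable (fun ω => (∑ i ∈ I, ∑ j ∈ I,
        (A i ∩ A j).indicator (fun _ => (1 : ℝ)) ω) - (2 * G) * (∑ i ∈ I, f i ω)) P :=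
      hI1.sub (hI2.const_mul _)
    have hJ2 : Integrable (fun ω => G ^ 2 * u ω) P := hI3.const_mul _
    have hJ3 : Integrable (fun ω => (2 * G) * (∑ i ∈ I, f i ω)) P := hI2.const_mul _
    rw [hcongr, integral_add hJ1 hJ2, integral_sub hI1 hJ3, integral_const_mul,
      integral_const_mul, e1, e2, e3]
  rw [hcalc] at hnn
  have hsum : ∑ i ∈ I, ∑ j ∈ I, P.real (A i ∩ A j) ≤ G * ∑ i ∈ I, P.real (A i) := by
    rw [Finset.mul_sum]
    exact Finset.sum_le_sum h
  nlinarith

variable {Γ : Type*} [Group Γ] [DecidableEq Γ]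

/-- Self-avoiding paths of length `n` from `x` with increments in `F` avoiding `A`, given by the
list of their further vertices. -/
def saw (F : Finset Γ) : ℕ → Γ → Finset Γ → Finset (List Γ)
  | 0, _, _ => {[]}
  | n + 1, x, A => ((F.image (x * ·)) \ (insert x A)).biUnion fun y =>
      (saw F n y (insert x A)).image (List.cons y)

/-- The edges of the path starting at `x` and visiting the listed vertices. -/
def pedges : Γ → List Γ → Finset (Sym2 Γ)
  | _, [] => ∅
  | x, y :: l => insert s(x, y) (pedges y l)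

theorem mem_saw_succ {F : Finset Γ} {n : ℕ} {x : Γ} {A : Finset Γ} {l : List Γ} :
    l ∈ saw F (n + 1) x A ↔ ∃ y, ((∃ f ∈ F, x * f = y) ∧ y ∉ insert x A) ∧
      ∃ l' ∈ saw F n y (insert x A), y :: l' = l := by
  simp only [saw, Finset.mem_biUnion, Finset.mem_sdiff, Finset.mem_image]

theorem sum_saw_succ (F : Finset Γ) (n : ℕ) (x : Γ) (A : Finset Γ) (φ : List Γ → ℝ) :
    ∑ l ∈ saw F (n + 1) x A, φ l
      = ∑ y ∈ (F.image (x * ·)) \ (insert x A), ∑ l ∈ saw F n y (insert x A), φ (y :: l) := by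
  simp only [saw]
  rw [Finset.sum_biUnion]
  · refine Finset.sum_congr rfl fun y _ => ?_
    rw [Finset.sum_image]
    intro a _ b _ hab
    exact (List.cons.inj hab).2
  · intro y _ z _ hyz
    rw [Function.onFun, Finset.disjoint_left]
    intro l hl hl'
    obtain ⟨a, _, rfl⟩ := Finset.mem_image.mp hl
    obtain ⟨b, _, hb⟩ := Finset.mem_image.mp hl'
    exact hyz (List.cons.inj hb).1.symm

theorem saw_spec {F : Finset Γ} {n : ℕ} {x : Γ} {A : Finset Γ} {l : List Γ}
    (h : l ∈ saw F n x A) : l.length = n ∧ (∀ z ∈ l, z ∉ insert x A) ∧ l.Nodup := by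
  induction n generalizing x A l with
  | zero =>
    have : l = [] := by simpa [saw] using h
    subst this
    simp
  | succ n ih =>
    obtain ⟨y, ⟨_, hy⟩, l', hl', rfl⟩ := mem_saw_succ.mp h
    obtain ⟨h1, h2, h3⟩ := ih hl'
    refine ⟨by simp [h1], ?_, ?_⟩
    · intro z hz
      rcases List.mem_cons.mp hz with rfl | hz
      · exact hy
      · intro hz'
        exact h2 z hz (Finset.mem_insert_of_mem hz')
    · rw [List.nodup_cons]
      refine ⟨fun hyl => ?_, h3⟩
      exact h2 y hyl (Finset.mem_insert_self y _)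

theorem mem_pedges {x : Γ} {l : List Γ} {e : Sym2 Γ} (h : e ∈ pedges x l) :
    ∀ z ∈ e, z = x ∨ z ∈ l := by
  induction l generalizing x with
  | nil => simp [pedges] at h
  | cons y l ih =>
    simp only [pedges, Finset.mem_insert] at h
    intro z hz
    rcases h with rfl | h
    · rcases Sym2.mem_iff.mp hz with rfl | rfl
      · left; rfl
      · right; simp
    · rcases ih h z hz with rfl | h'
      · right; simp
      · right; simp [h']

theorem notMem_pedges_of_saw {F : Finset Γ} {n : ℕ} {x y : Γ} {A : Finset Γ} {l : List Γ}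
    (hy : y ∉ insert x A) (h : l ∈ saw F n y (insert x A)) : s(x, y) ∉ pedges y l := by
  intro he
  have h1 := mem_pedges he x (by simp)
  rcases h1 with rfl | h1
  · exact hy (Finset.mem_insert_self _ _)
  · exact (saw_spec h).2.1 x h1 (by simp)

theorem card_pedges {F : Finset Γ} {n : ℕ} {x : Γ} {A : Finset Γ} {l : List Γ}
    (h : l ∈ saw F n x A) : (pedges x l).card = n := by
  induction n generalizing x A l with
  | zero =>
    have : l = [] := by simpa [saw] using h
    subst this
    simp [pedges]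
  | succ n ih =>
    obtain ⟨y, ⟨_, hy⟩, l', hl', rfl⟩ := mem_saw_succ.mp h
    simp only [pedges]
    rw [Finset.card_insert_of_notMem (notMem_pedges_of_saw hy hl'), ih hl']

theorem pedges_ring {F : Finset Γ} {n : ℕ} {x : Γ} {A : Finset Γ} {l : List Γ}
    (h : l ∈ saw F n x A) {e : Sym2 Γ} (he : e ∈ pedges x l) : ∃ z, ∃ f ∈ F, e = s(z, z * f) := by
  induction n generalizing x A l with
  | zero =>
    have : l = [] := by simpa [saw] using h
    subst this
    simp [pedges] at he
  | succ n ih =>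
    obtain ⟨y, ⟨⟨f, hf, hxf⟩, hy⟩, l', hl', rfl⟩ := mem_saw_succ.mp h
    simp only [pedges, Finset.mem_insert] at he
    rcases he with rfl | he
    · exact ⟨x, f, hf, by rw [hxf]⟩
    · exact ih hl' he

/-- The number of self-avoiding paths is large. -/
theorem card_saw_ge (F : Finset Γ) (n : ℕ) (x : Γ) (A : Finset Γ) :
    (F.card - (A.card + n)) ^ n ≤ (saw F n x A).card := by
  induction n generalizing x A with
  | zero => simp [saw]
  | succ n ih =>
    have h1 : (saw F (n + 1) x A).card
        = ∑ y ∈ (F.image (x * ·)) \ (insert x A), (saw F n y (insert x A)).card := by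
      have := sum_saw_succ F n x A (fun _ => 1)
      simp only [Finset.sum_const, nsmul_eq_mul, mul_one] at this
      exact_mod_cast this
    rw [h1]
    have hcardF : (F.image (x * ·)).card = F.card :=
      Finset.card_image_of_injective _ (mul_right_injective x)
    have h2 : F.card - (A.card + 1) ≤ ((F.image (x * ·)) \ (insert x A)).card := by
      have := Finset.le_card_sdiff (insert x A) (F.image (x * ·))
      have h3 := Finset.card_insert_le x A
      omega
    calc (F.card - (A.card + (n + 1))) ^ (n + 1)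
        = (F.card - (A.card + (n + 1))) * (F.card - (A.card + (n + 1))) ^ n := by
          rw [pow_succ]; ring
      _ ≤ ((F.image (x * ·)) \ (insert x A)).card * (F.card - (A.card + (n + 1))) ^ n := by
          refine Nat.mul_le_mul_right _ (le_trans ?_ h2)
          omega
      _ = ∑ _y ∈ (F.image (x * ·)) \ (insert x A), (F.card - (A.card + (n + 1))) ^ n := by
          rw [Finset.sum_const, smul_eq_mul]
      _ ≤ ∑ y ∈ (F.image (x * ·)) \ (insert x A), (saw F n y (insert x A)).card := by
          refine Finset.sum_le_sum fun y _ => le_trans (Nat.pow_le_pow_left ?_ n) (ih y _)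
          have h3 := Finset.card_insert_le x A
          omega

/-- The weight `r ^ #(new edges)` of a path relative to a set `E₀` of old edges. -/
def wt (r : ℝ) (E₀ : Finset (Sym2 Γ)) (x : Γ) (l : List Γ) : ℝ := r ^ (pedges x l \ E₀).card

/-- The total weight of the self-avoiding paths. -/
def wsum (F : Finset Γ) (r : ℝ) (E₀ : Finset (Sym2 Γ)) (n : ℕ) (x : Γ) (A : Finset Γ) : ℝ :=
  ∑ l ∈ saw F n x A, wt r E₀ x l

/-- The weight of one step. -/
def q (r : ℝ) (E₀ : Finset (Sym2 Γ)) (x y : Γ) : ℝ := if s(x, y) ∈ E₀ then 1 else r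

theorem wt_cons {F : Finset Γ} {r : ℝ} {E₀ : Finset (Sym2 Γ)} {n : ℕ} {x y : Γ} {A : Finset Γ}
    {l : List Γ} (hy : y ∉ insert x A) (h : l ∈ saw F n y (insert x A)) :
    wt r E₀ x (y :: l) = q r E₀ x y * wt r E₀ y l := by
  have h1 := notMem_pedges_of_saw hy h
  simp only [wt, q, pedges]
  by_cases h2 : s(x, y) ∈ E₀
  · rw [if_pos h2, Finset.insert_sdiff_of_mem _ h2, one_mul]
  · rw [if_neg h2, Finset.insert_sdiff_of_notMem _ h2, Finset.card_insert_of_notMem, pow_succ,
      mul_comm]
    intro h3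
    exact h1 (Finset.mem_sdiff.mp h3).1

theorem wsum_succ (F : Finset Γ) (r : ℝ) (E₀ : Finset (Sym2 Γ)) (n : ℕ) (x : Γ) (A : Finset Γ) :
    wsum F r E₀ (n + 1) x A
      = ∑ y ∈ (F.image (x * ·)) \ (insert x A), q r E₀ x y * wsum F r E₀ n y (insert x A) := by
  unfold wsum
  rw [sum_saw_succ]
  refine Finset.sum_congr rfl fun y hy => ?_
  rw [Finset.mul_sum]
  refine Finset.sum_congr rfl fun l hl => ?_
  exact wt_cons (Finset.mem_sdiff.mp hy).2 hl

theorem wsum_zero (F : Finset Γ) (r : ℝ) (E₀ : Finset (Sym2 Γ)) (x : Γ) (A : Finset Γ) :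
    wsum F r E₀ 0 x A = 1 := by
  simp [wsum, saw, wt, pedges]

theorem wsum_nonneg (F : Finset Γ) {r : ℝ} (hr : 0 ≤ r) (E₀ : Finset (Sym2 Γ)) (n : ℕ) (x : Γ)
    (A : Finset Γ) : 0 ≤ wsum F r E₀ n x A :=
  Finset.sum_nonneg fun _ _ => pow_nonneg hr _

theorem q_nonneg {r : ℝ} (hr : 0 ≤ r) (E₀ : Finset (Sym2 Γ)) (x y : Γ) : 0 ≤ q r E₀ x y := by
  unfold q
  split_ifs
  · exact zero_le_one
  · exact hr

theorem sum_q_le {F : Finset Γ} {r L : ℝ} (hr : 0 ≤ r) (hL : F.card * r ≤ L)
    (E₀ : Finset (Sym2 Γ)) (x : Γ) (Y : Finset Γ) (hY : Y ⊆ F.image (x * ·)) :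
    ∑ y ∈ Y, q r E₀ x y ≤ L + E₀.card := by
  have h1 : ∀ y ∈ Y, q r E₀ x y ≤ r + if s(x, y) ∈ E₀ then 1 else 0 := by
    intro y _
    unfold q
    split_ifs
    · linarith
    · linarith
  have h2 : ∑ y ∈ Y, q r E₀ x y ≤ ∑ y ∈ Y, (r + if s(x, y) ∈ E₀ then 1 else 0) :=
    Finset.sum_le_sum h1
  have h3 : (Y.card : ℝ) ≤ F.card := by
    have := (Finset.card_le_card hY).trans Finset.card_image_le
    exact_mod_cast this
  have h4 : ∑ y ∈ Y, (if s(x, y) ∈ E₀ then (1 : ℝ) else 0) ≤ E₀.card := by
    rw [← Finset.sum_filter, Finset.sum_const, nsmul_eq_mul, mul_one]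
    have : (Y.filter fun y => s(x, y) ∈ E₀).card ≤ E₀.card := by
      refine Finset.card_le_card_of_injOn (fun y => s(x, y)) ?_ ?_
      · intro y hy
        exact (Finset.mem_filter.mp hy).2
      · intro y _ z _ hyz
        exact Sym2.congr_right.mp hyz
    exact_mod_cast this
  rw [Finset.sum_add_distrib, Finset.sum_const, nsmul_eq_mul] at h2
  have h5 : (Y.card : ℝ) * r ≤ F.card * r := mul_le_mul_of_nonneg_right h3 hr
  linarith

/-- Crude bound. -/
theorem wsum_le_crude {F : Finset Γ} {r L : ℝ} (hr : 0 ≤ r) (hL : F.card * r ≤ L)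
    (E₀ : Finset (Sym2 Γ)) (n : ℕ) (x : Γ) (A : Finset Γ) :
    wsum F r E₀ n x A ≤ (L + E₀.card) ^ n := by
  have hL0 : 0 ≤ L := le_trans (by positivity) hL
  induction n generalizing x A with
  | zero => rw [wsum_zero, pow_zero]
  | succ n ih =>
    rw [wsum_succ]
    calc ∑ y ∈ (F.image (x * ·)) \ (insert x A), q r E₀ x y * wsum F r E₀ n y (insert x A)
        ≤ ∑ y ∈ (F.image (x * ·)) \ (insert x A), q r E₀ x y * (L + E₀.card) ^ n :=
          Finset.sum_le_sum fun y _ => mul_le_mul_of_nonneg_left (ih y _) (q_nonneg hr _ _ _)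
      _ = (∑ y ∈ (F.image (x * ·)) \ (insert x A), q r E₀ x y) * (L + E₀.card) ^ n :=
          (Finset.sum_mul _ _ _).symm
      _ ≤ (L + E₀.card) * (L + E₀.card) ^ n := by
          refine mul_le_mul_of_nonneg_right ?_ (by positivity)
          exact sum_q_le hr hL E₀ x _ Finset.sdiff_subset
      _ = (L + E₀.card) ^ (n + 1) := by rw [pow_succ]; ring

/-- Bound for paths starting off the old path. -/
theorem wsum_le_out {F : Finset Γ} {r L : ℝ} (hr : 0 ≤ r) (hL : F.card * r ≤ L) (hL1 : 1 ≤ L)
    {E₀ : Finset (Sym2 Γ)} {V : Finset Γ} (hV : ∀ e ∈ E₀, ∀ z ∈ e, z ∈ V) (n : ℕ) (x : Γ)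
    (hx : x ∉ V) (A : Finset Γ) :
    wsum F r E₀ n x A ≤ L ^ n + n * V.card * r * (L + E₀.card) ^ n := by
  induction n generalizing x A with
  | zero => rw [wsum_zero]; simp
  | succ n ih =>
    rw [wsum_succ]
    set β := L + (E₀.card : ℝ) with hβ
    have hβ1 : 1 ≤ β := by
      have : (0 : ℝ) ≤ E₀.card := by positivity
      linarith
    have hβL : L ≤ β := by
      have : (0 : ℝ) ≤ E₀.card := by positivity
      linarith
    set Y := (F.image (x * ·)) \ (insert x A) with hY
    have hq : ∀ y ∈ Y, q r E₀ x y = r := by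
      intro y _
      unfold q
      rw [if_neg]
      intro h
      exact hx (hV _ h x (by simp))
    have hterm : ∀ y ∈ Y, q r E₀ x y * wsum F r E₀ n y (insert x A)
        ≤ r * (L ^ n + n * V.card * r * β ^ n) + if y ∈ V then r * β ^ n else 0 := by
      intro y hy
      rw [hq y hy]
      by_cases hyV : y ∈ V
      · rw [if_pos hyV]
        have h1 := wsum_le_crude hr hL E₀ n y (insert x A)
        have h2 : r * wsum F r E₀ n y (insert x A) ≤ r * β ^ n :=
          mul_le_mul_of_nonneg_left h1 hr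
        have h3 : 0 ≤ r * (L ^ n + n * V.card * r * β ^ n) := by positivity
        linarith
      · rw [if_neg hyV, add_zero]
        exact mul_le_mul_of_nonneg_left (ih y hyV _) hr
    refine (Finset.sum_le_sum hterm).trans ?_
    rw [Finset.sum_add_distrib, Finset.sum_const, nsmul_eq_mul, ← Finset.sum_filter,
      Finset.sum_const, nsmul_eq_mul]
    have hYF : (Y.card : ℝ) ≤ F.card := by
      have := (Finset.card_le_card (Finset.sdiff_subset (s := F.image (x * ·))
        (t := insert x A))).trans Finset.card_image_le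
      exact_mod_cast this
    have hYV : ((Y.filter fun y => y ∈ V).card : ℝ) ≤ V.card := by
      have : (Y.filter fun y => y ∈ V) ⊆ V := fun y hy => (Finset.mem_filter.mp hy).2
      exact_mod_cast Finset.card_le_card this
    have h1 : (Y.card : ℝ) * (r * (L ^ n + n * V.card * r * β ^ n))
        ≤ L * (L ^ n + n * V.card * r * β ^ n) := by
      have h2 : (Y.card : ℝ) * r ≤ L := (mul_le_mul_of_nonneg_right hYF hr).trans hL
      have h3 : 0 ≤ L ^ n + n * V.card * r * β ^ n := by positivity
      calc (Y.card : ℝ) * (r * (L ^ n + n * V.card * r * β ^ n))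
          = (Y.card * r) * (L ^ n + n * V.card * r * β ^ n) := by ring
        _ ≤ _ := mul_le_mul_of_nonneg_right h2 h3
    have h4 : ((Y.filter fun y => y ∈ V).card : ℝ) * (r * β ^ n) ≤ V.card * (r * β ^ n) :=
      mul_le_mul_of_nonneg_right hYV (by positivity)
    have h5 : L * (n * V.card * r * β ^ n) ≤ n * V.card * r * β ^ (n + 1) := by
      rw [pow_succ]
      have : 0 ≤ n * V.card * r * β ^ n := by positivity
      nlinarith
    have h6 : (V.card : ℝ) * (r * β ^ n) ≤ V.card * r * β ^ (n + 1) := by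
      rw [pow_succ]
      have : 0 ≤ V.card * r * β ^ n := by positivity
      nlinarith
    push_cast
    rw [pow_succ L]
    nlinarith

/-- The bound for the paths starting at the beginning of the old path. -/
noncomputable def gbound (r L v β : ℝ) : ℕ → ℝ
  | 0 => 1
  | j + 1 => gbound r L v β j + L * (L ^ j + j * v * r * β ^ j) + v * (r * β ^ j)

theorem gbound_eq (r L v β : ℝ) (n : ℕ) :
    gbound r L v β n = ∑ j ∈ Finset.range (n + 1), L ^ j
      + r * ∑ j ∈ Finset.range n, (L * j * v * β ^ j + v * β ^ j) := by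
  induction n with
  | zero => simp [gbound]
  | succ n ih =>
    rw [gbound, ih, Finset.sum_range_succ (fun j => L ^ j) (n + 1),
      Finset.sum_range_succ (fun j : ℕ => L * j * v * β ^ j + v * β ^ j) n]
    ring

/-- Paths following the old path for a while and then leaving it. -/
theorem wsum_le_follow {F : Finset Γ} {r L : ℝ} (hr : 0 ≤ r) (hr1 : r ≤ 1)
    (hL : F.card * r ≤ L) (hL1 : 1 ≤ L)
    {E₀ : Finset (Sym2 Γ)} {V : Finset Γ} (hV : ∀ e ∈ E₀, ∀ z ∈ e, z ∈ V) (n : ℕ) (x : Γ)
    (A : Finset Γ) (m : List Γ) (hm : m ∈ saw F n x A)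
    (hE : ∀ e ∈ E₀, e ∈ pedges x m ∨ ∀ z ∈ e, z ∈ insert x A) :
    wsum F r E₀ n x A ≤ gbound r L V.card (L + E₀.card) n := by
  induction n generalizing x A m with
  | zero => rw [wsum_zero, gbound]
  | succ n ih =>
    obtain ⟨y₀, ⟨hy₀F, hy₀⟩, m', hm', rfl⟩ := mem_saw_succ.mp hm
    rw [wsum_succ, gbound]
    set β := L + (E₀.card : ℝ) with hβ
    have hβ1 : 1 ≤ β := by
      have : (0 : ℝ) ≤ E₀.card := by positivity
      linarith
    set Y := (F.image (x * ·)) \ (insert x A) with hY
    have hy₀Y : y₀ ∈ Y := by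
      rw [hY, Finset.mem_sdiff, Finset.mem_image]
      exact ⟨hy₀F, hy₀⟩
    rw [← Finset.add_sum_erase Y _ hy₀Y]
    -- the step along the old path
    have hfirst : q r E₀ x y₀ * wsum F r E₀ n y₀ (insert x A) ≤ gbound r L V.card β n := by
      have h1 : wsum F r E₀ n y₀ (insert x A) ≤ gbound r L V.card β n := by
        refine ih y₀ (insert x A) m' hm' ?_
        intro e he
        rcases hE e he with h | h
        · simp only [pedges, Finset.mem_insert] at h
          rcases h with rfl | h
          · right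
            intro z hz
            rcases Sym2.mem_iff.mp hz with rfl | rfl
            · simp
            · simp
          · left; exact h
        · right
          intro z hz
          exact Finset.mem_insert_of_mem (h z hz)
      have h0 : 0 ≤ wsum F r E₀ n y₀ (insert x A) := wsum_nonneg F hr _ _ _ _
      have h3 : q r E₀ x y₀ ≤ 1 := by
        unfold q
        split_ifs
        · exact le_rfl
        · exact hr1
      nlinarith
    -- the other steps
    have hq : ∀ y ∈ Y.erase y₀, q r E₀ x y = r := by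
      intro y hy
      obtain ⟨hne, hyY⟩ := Finset.mem_erase.mp hy
      have hyA : y ∉ insert x A := (Finset.mem_sdiff.mp hyY).2
      unfold q
      rw [if_neg]
      intro h
      rcases hE _ h with h1 | h1
      · simp only [pedges, Finset.mem_insert] at h1
        rcases h1 with h1 | h1
        · exact hne (Sym2.congr_right.mp h1)
        · rcases mem_pedges h1 x (by simp) with h2 | h2
          · exact hy₀ (h2 ▸ Finset.mem_insert_self _ _)
          · exact (saw_spec hm').2.1 x h2 (by simp)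
      · exact hyA (h1 y (by simp))
    have hterm : ∀ y ∈ Y.erase y₀, q r E₀ x y * wsum F r E₀ n y (insert x A)
        ≤ r * (L ^ n + n * V.card * r * β ^ n) + if y ∈ V then r * β ^ n else 0 := by
      intro y hy
      rw [hq y hy]
      by_cases hyV : y ∈ V
      · rw [if_pos hyV]
        have h1 := wsum_le_crude hr hL E₀ n y (insert x A)
        have h2 : r * wsum F r E₀ n y (insert x A) ≤ r * β ^ n :=
          mul_le_mul_of_nonneg_left h1 hr
        have h3 : 0 ≤ r * (L ^ n + n * V.card * r * β ^ n) := by positivity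
        linarith
      · rw [if_neg hyV, add_zero]
        exact mul_le_mul_of_nonneg_left (wsum_le_out hr hL hL1 hV n y hyV _) hr
    have hrest := Finset.sum_le_sum hterm
    rw [Finset.sum_add_distrib, Finset.sum_const, nsmul_eq_mul, ← Finset.sum_filter,
      Finset.sum_const, nsmul_eq_mul] at hrest
    have hYF : ((Y.erase y₀).card : ℝ) ≤ F.card := by
      have := (Finset.card_le_card ((Finset.erase_subset y₀ Y).trans
        (Finset.sdiff_subset (s := F.image (x * ·)) (t := insert x A)))).trans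
        Finset.card_image_le
      exact_mod_cast this
    have hYV : (((Y.erase y₀).filter fun y => y ∈ V).card : ℝ) ≤ V.card := by
      have : ((Y.erase y₀).filter fun y => y ∈ V) ⊆ V :=
        fun y hy => (Finset.mem_filter.mp hy).2
      exact_mod_cast Finset.card_le_card this
    have h1 : ((Y.erase y₀).card : ℝ) * (r * (L ^ n + n * V.card * r * β ^ n))
        ≤ L * (L ^ n + n * V.card * r * β ^ n) := by
      have h2 : ((Y.erase y₀).card : ℝ) * r ≤ L := (mul_le_mul_of_nonneg_right hYF hr).trans hL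
      have h3 : 0 ≤ L ^ n + n * V.card * r * β ^ n := by positivity
      calc ((Y.erase y₀).card : ℝ) * (r * (L ^ n + n * V.card * r * β ^ n))
          = ((Y.erase y₀).card * r) * (L ^ n + n * V.card * r * β ^ n) := by ring
        _ ≤ _ := mul_le_mul_of_nonneg_right h2 h3
    have h4 : (((Y.erase y₀).filter fun y => y ∈ V).card : ℝ) * (r * β ^ n)
        ≤ V.card * (r * β ^ n) := mul_le_mul_of_nonneg_right hYV (by positivity)
    linarith

end Pool.Agent.Lib.MP_da416c_pr
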