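import Pool.Agent.Lib.MP_da416c_pr.StepFinal
import Pool.Agent.Lib.MP_da416c_pr.SecondMoment

/-!
# The first scale: uniform measure on a large finite symmetric set, total weight `l > 1`
-/

open MeasureTheory ProbabilityTheory Filter Topology
open scoped ENNReal NNReal

namespace Pool.Agent.Lib.MP_da416c_pr

/-- The event that all edges of a finite set are open at level `r`. -/
def allOpen {V : Type*} (r : ℝ) (E : Finset (Sym2 V)) : Set (Cfg V) := {U | ∀ e ∈ E, U e < r}

theorem measurableSet_allOpen {V : Type*} (r : ℝ) (E : Finset (Sym2 V)) :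
    MeasurableSet (allOpen r E) := by
  have : allOpen r E = ⋂ e ∈ E, {U : Cfg V | U e < r} := by ext U; simp [allOpen]
  rw [this]
  exact Finset.measurableSet_biInter _ fun e _ =>
    measurableSet_lt (measurable_pi_apply e) measurable_const

theorem prob_allOpen {V : Type*} {r : ℝ} (hr0 : 0 ≤ r) (hr1 : r ≤ 1) (E : Finset (Sym2 V)) :
    (prob V).real (allOpen r E) = r ^ E.card := by
  have h1 : allOpen r E = Set.pi (E : Set (Sym2 V)) fun _ => Set.Iio r := by
    ext U; simp [allOpen]
  rw [h1, measureReal_def, prob, Measure.infinitePi_pi _ fun _ _ => measurableSet_Iio,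
    Finset.prod_const, unif_Iio hr1, ENNReal.toReal_pow, ENNReal.toReal_ofReal hr0]

variable {Γ : Type*} [Group Γ] [DecidableEq Γ]

theorem reachable_of_allOpen {F : Finset Γ} {a : ℝ≥0} {U : Cfg Γ} {n : ℕ} {x : Γ} {A : Finset Γ}
    {l : List Γ} (hl : l ∈ saw F n x A) (hU : ∀ e ∈ pedges x l, U e < thr a) :
    ∀ z ∈ l, (openGraph (ringW F a) Set.univ U).Reachable x z := by
  induction n generalizing x A l with
  | zero =>
    have : l = [] := by simpa [saw] using hl
    subst this
    simp
  | succ n ih =>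
    obtain ⟨y, ⟨⟨f, hf, hxf⟩, hy⟩, l', hl', rfl⟩ := mem_saw_succ.mp hl
    have hadj : (openGraph (ringW F a) Set.univ U).Adj x y := by
      rw [openGraph_adj]
      refine ⟨⟨mk_mem_inside.mpr ⟨trivial, trivial⟩, ?_⟩, ?_⟩
      · rw [ringW_mk, if_pos]
        · exact hU _ (by simp [pedges])
        · left
          rw [← hxf, inv_mul_cancel_left]
          exact hf
      · rintro rfl
        exact hy (Finset.mem_insert_self _ _)
    intro z hz
    rcases List.mem_cons.mp hz with rfl | hz
    · exact hadj.reachable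
    · exact hadj.reachable.trans (ih hl' (fun e he => hU e (by simp [pedges, he])) z hz)

theorem big_of_allOpen {F : Finset Γ} {a : ℝ≥0} {U : Cfg Γ} {n : ℕ}
    {l : List Γ} (hl : l ∈ saw F n 1 ∅) (hU : U ∈ allOpen (thr a) (pedges 1 l)) :
    U ∈ big (ringW F a) Set.univ (n + 1) 1 := by
  obtain ⟨h1, h2, h3⟩ := saw_spec hl
  have h4 : ((insert 1 l.toFinset : Finset Γ) : Set Γ) ⊆ cluster (ringW F a) Set.univ U 1 := by
    intro z hz
    have hz' : z ∈ insert 1 l.toFinset := by exact_mod_cast hz
    rcases Finset.mem_insert.mp hz' with rfl | hz'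
    · exact mem_cluster_self
    · exact reachable_of_allOpen hl hU z (by simpa using hz')
  have h5 : (insert 1 l.toFinset : Finset Γ).card = n + 1 := by
    rw [Finset.card_insert_of_notMem, List.toFinset_card_of_nodup h3, h1]
    intro h
    exact h2 1 (by simpa using h) (Finset.mem_insert_self _ _)
  show ((n + 1 : ℕ) : ℕ∞) ≤ (cluster (ringW F a) Set.univ U 1).encard
  rw [← h5, ← Set.encard_coe_eq_coe_finsetCard]
  exact Set.encard_le_encard h4

theorem base_bound [Countable Γ] {F : Finset Γ} {a : ℝ≥0} {L : ℝ} (hL : F.card * thr a ≤ L)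
    (hL1 : 1 ≤ L) {n : ℕ} (hn : n ≤ F.card) :
    (((F.card : ℝ) - n) * thr a) ^ n
      ≤ gbound (thr a) L (n + 1) (L + n) n * (prob Γ).real (big (ringW F a) Set.univ (n + 1) 1) := by
  set r := thr a with hr
  have hr0 : 0 ≤ r := thr_nonneg a
  have hr1 : r ≤ 1 := thr_le_one a
  set G := gbound r L (n + 1) (L + n) n with hG
  have hG0 : 0 < G := by
    rw [hG, gbound_eq]
    have h1 : 0 < ∑ j ∈ Finset.range (n + 1), L ^ j :=
      Finset.sum_pos (fun j _ => by positivity) (by simp)
    have h2 : 0 ≤ r * ∑ j ∈ Finset.range n,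
        (L * j * ((n : ℝ) + 1) * (L + n) ^ j + ((n : ℝ) + 1) * (L + n) ^ j) := by
      refine mul_nonneg hr0 (Finset.sum_nonneg fun j _ => by positivity)
    linarith
  have hsm := second_moment (prob Γ) (saw F n 1 ∅) (fun l => allOpen r (pedges 1 l))
    (fun l _ => measurableSet_allOpen r _) hG0 ?_
  · have h1 : ∑ l ∈ saw F n 1 ∅, (prob Γ).real (allOpen r (pedges 1 l))
        = (saw F n 1 ∅).card * r ^ n := by
      rw [Finset.sum_congr rfl fun l hl => by
        rw [prob_allOpen hr0 hr1, card_pedges hl], Finset.sum_const, nsmul_eq_mul]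
    rw [h1] at hsm
    have h2 : (((F.card : ℝ) - n)) ^ n ≤ (saw F n 1 ∅).card := by
      have h3 := card_saw_ge F n 1 ∅
      simp only [Finset.card_empty, zero_add] at h3
      have h4 : ((F.card : ℝ) - n) = ((F.card - n : ℕ) : ℝ) := by
        rw [Nat.cast_sub hn]
      rw [h4]
      exact_mod_cast h3
    have h5 : (prob Γ).real (⋃ l ∈ saw F n 1 ∅, allOpen r (pedges 1 l))
        ≤ (prob Γ).real (big (ringW F a) Set.univ (n + 1) 1) := by
      refine measureReal_mono ?_ (measure_ne_top _ _)
      intro U hU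
      simp only [Set.mem_iUnion] at hU
      obtain ⟨l, hl, hU⟩ := hU
      exact big_of_allOpen hl hU
    calc (((F.card : ℝ) - n) * r) ^ n = ((F.card : ℝ) - n) ^ n * r ^ n := mul_pow _ _ _
      _ ≤ (saw F n 1 ∅).card * r ^ n := mul_le_mul_of_nonneg_right h2 (by positivity)
      _ ≤ _ := hsm
      _ ≤ _ := mul_le_mul_of_nonneg_left h5 hG0.le
  · intro l hl
    set E₀ := pedges 1 l with hE₀
    have hcard : E₀.card = n := card_pedges hl
    set V : Finset Γ := insert 1 l.toFinset with hV
    have hVcard : V.card = n + 1 := by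
      obtain ⟨h1, h2, h3⟩ := saw_spec hl
      rw [hV, Finset.card_insert_of_notMem, List.toFinset_card_of_nodup h3, h1]
      intro h
      exact h2 1 (by simpa using h) (Finset.mem_insert_self _ _)
    have hVE : ∀ e ∈ E₀, ∀ z ∈ e, z ∈ V := by
      intro e he z hz
      rcases mem_pedges he z hz with rfl | h
      · simp [hV]
      · simp [hV, h]
    have hfol := wsum_le_follow hr0 hr1 hL hL1 hVE n 1 ∅ l hl (fun e he => Or.inl he)
    have h6 : ∀ l' ∈ saw F n 1 ∅, (prob Γ).real (allOpen r E₀ ∩ allOpen r (pedges 1 l'))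
        = r ^ n * wt r E₀ 1 l' := by
      intro l' _
      have h7 : allOpen r E₀ ∩ allOpen r (pedges 1 l') = allOpen r (E₀ ∪ (pedges 1 l' \ E₀)) := by
        ext U
        simp only [allOpen, Set.mem_inter_iff, Set.mem_ofPred_eq, Finset.union_sdiff_self_eq_union,
          Finset.mem_union]
        constructor
        · rintro ⟨h8, h9⟩ e (he | he)
          · exact h8 e he
          · exact h9 e he
        · intro h8
          exact ⟨fun e he => h8 e (Or.inl he), fun e he => h8 e (Or.inr he)⟩
      rw [h7, prob_allOpen hr0 hr1, Finset.card_union_of_disjoint Finset.disjoint_sdiff, hcard,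
        pow_add, wt]
    rw [Finset.sum_congr rfl h6, ← Finset.mul_sum, prob_allOpen hr0 hr1, hcard, mul_comm]
    refine mul_le_mul_of_nonneg_right ?_ (by positivity)
    rw [hVcard, hcard] at hfol
    push_cast at hfol
    exact hfol

/-- Asymptotics of the opening probability. -/
theorem tendsto_mul_thr (l : ℝ≥0) :
    Tendsto (fun N : ℕ => (N : ℝ) * thr (l / N)) atTop (𝓝 (l : ℝ)) := by
  have hlow : Tendsto (fun N : ℕ => (l : ℝ) / (1 + l / N)) atTop (𝓝 (l : ℝ)) := by
    have h1 : Tendsto (fun N : ℕ => (1 : ℝ) + l / N) atTop (𝓝 (1 + 0)) :=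
      tendsto_const_nhds.add (tendsto_const_div_atTop_nhds_zero_nat (l : ℝ))
    have h2 : Tendsto (fun N : ℕ => (l : ℝ) / (1 + l / N)) atTop (𝓝 ((l : ℝ) / (1 + 0))) :=
      tendsto_const_nhds.div h1 (by norm_num)
    rw [add_zero, div_one] at h2
    exact h2
  refine tendsto_of_tendsto_of_tendsto_of_le_of_le' hlow tendsto_const_nhds ?_ ?_
  · filter_upwards [eventually_gt_atTop 0] with N hN
    have hN' : (0 : ℝ) < N := by exact_mod_cast hN
    set x : ℝ := l / N with hx
    have hx0 : 0 ≤ x := by positivity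
    have h1 : thr (l / N) = 1 - Real.exp (-x) := by
      unfold thr; rw [hx]; push_cast; rfl
    have hexp : Real.exp (-x) ≤ 1 / (1 + x) := by
      rw [Real.exp_neg, ← one_div]
      apply one_div_le_one_div_of_le (by linarith)
      have := Real.add_one_le_exp x
      linarith
    have h2 : x / (1 + x) ≤ 1 - Real.exp (-x) := by
      have : x / (1 + x) = 1 - 1 / (1 + x) := by field_simp; ring
      linarith
    rw [h1]
    calc (l : ℝ) / (1 + x) = N * (x / (1 + x)) := by rw [hx]; field_simp
      _ ≤ _ := mul_le_mul_of_nonneg_left h2 hN'.le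
  · filter_upwards [eventually_gt_atTop 0] with N hN
    have hN' : (0 : ℝ) < N := by exact_mod_cast hN
    have h1 := thr_le (l / N)
    push_cast at h1
    calc (N : ℝ) * thr (l / N) ≤ N * (l / N) := mul_le_mul_of_nonneg_left h1 hN'.le
      _ = l := by field_simp

theorem tendsto_thr (l : ℝ≥0) : Tendsto (fun N : ℕ => thr (l / N)) atTop (𝓝 0) := by
  refine tendsto_of_tendsto_of_tendsto_of_le_of_le tendsto_const_nhds
    (tendsto_const_div_atTop_nhds_zero_nat (l : ℝ)) (fun N => thr_nonneg _) fun N => ?_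
  have := thr_le (l / N)
  push_cast at this
  exact this

theorem eventually_base {l : ℝ≥0} (hl : 1 < l) (n : ℕ) :
    ∀ᶠ N : ℕ in atTop, (1 - 1 / (l : ℝ)) * gbound (thr (l / N)) l (n + 1) (l + n) n
      < (((N : ℝ) - n) * thr (l / N)) ^ n := by
  have hl' : (1 : ℝ) < l := by exact_mod_cast hl
  set C : ℝ := ∑ j ∈ Finset.range n,
    ((l : ℝ) * j * ((n : ℝ) + 1) * (l + n) ^ j + ((n : ℝ) + 1) * (l + n) ^ j) with hC
  have h1 : Tendsto (fun N : ℕ => (1 - 1 / (l : ℝ)) * gbound (thr (l / N)) l (n + 1) (l + n) n)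
      atTop (𝓝 ((1 - 1 / (l : ℝ)) * (∑ j ∈ Finset.range (n + 1), (l : ℝ) ^ j + 0 * C))) := by
    simp_rw [gbound_eq]
    exact ((tendsto_thr l).mul_const C |>.const_add _).const_mul _
  have h2 : Tendsto (fun N : ℕ => (((N : ℝ) - n) * thr (l / N)) ^ n) atTop
      (𝓝 (((l : ℝ) - n * 0) ^ n)) := by
    refine Tendsto.pow ?_ n
    have h3 := (tendsto_mul_thr l).sub ((tendsto_thr l).const_mul (n : ℝ))
    refine h3.congr fun N => ?_
    ring
  refine h1.eventually_lt h2 ?_
  have h4 : (∑ j ∈ Finset.range (n + 1), (l : ℝ) ^ j) * ((l : ℝ) - 1) = (l : ℝ) ^ (n + 1) - 1 :=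
    geom_sum_mul (l : ℝ) (n + 1)
  have h5 : (1 - 1 / (l : ℝ)) * ∑ j ∈ Finset.range (n + 1), (l : ℝ) ^ j
      = (l : ℝ) ^ n - 1 / l := by
    have : (1 - 1 / (l : ℝ)) = ((l : ℝ) - 1) / l := by field_simp
    rw [this, div_mul_eq_mul_div, mul_comm, h4, pow_succ]
    field_simp
  have h6 : (0 : ℝ) < 1 / l := by positivity
  rw [zero_mul, add_zero, mul_zero, sub_zero, h5]
  linarith

/-- **First scale.** For `l > 1` and every `K` there is a finite symmetric set `F` such that the
percolation with total weight `l` spread uniformly over `F` has a cluster of size at least `K` with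
probability larger than `1 - 1/l`. -/
theorem exists_base [Countable Γ] [Infinite Γ] {l : ℝ≥0} (hl : 1 < l) (K : ℕ) :
    ∃ S : Finset Γ, (∀ g ∈ S, g⁻¹ ∈ S) ∧ S.Nonempty ∧ 1 ∉ S ∧
      1 - 1 / (l : ℝ) < (prob Γ).real (big (ringW S (l / S.card)) Set.univ K 1) := by
  obtain ⟨N₀, hN₀⟩ := eventually_atTop.mp (eventually_base hl K)
  obtain ⟨F, hF⟩ := Infinite.exists_subset_card_eq Γ (N₀ + K + 2)
  set S : Finset Γ := (F.erase 1) ∪ (F.erase 1).image (·⁻¹) with hS
  have hScard : N₀ + K + 1 ≤ S.card := by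
    have h1 : N₀ + K + 1 ≤ (F.erase 1).card := by
      have := Finset.pred_card_le_card_erase (s := F) (a := (1 : Γ))
      omega
    exact h1.trans (Finset.card_le_card Finset.subset_union_left)
  have hSne : S.Nonempty := by rw [← Finset.card_pos]; omega
  refine ⟨S, ?_, hSne, ?_, ?_⟩
  · intro g hg
    rw [hS, Finset.mem_union, Finset.mem_image] at hg ⊢
    rcases hg with hg | ⟨f, hf, rfl⟩
    · exact Or.inr ⟨g, hg, rfl⟩
    · rw [inv_inv]
      exact Or.inl hf
  · rw [hS, Finset.mem_union, Finset.mem_image]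
    rintro (h | ⟨f, hf, h⟩)
    · exact (Finset.mem_erase.mp h).1 rfl
    · rw [inv_eq_one] at h
      exact (Finset.mem_erase.mp hf).1 h
  · have h1 := hN₀ S.card (by omega)
    have hl' : (1 : ℝ) < l := by exact_mod_cast hl
    have hSpos : (0 : ℝ) < S.card := by
      have : 0 < S.card := by omega
      exact_mod_cast this
    have hLle : (S.card : ℝ) * thr (l / S.card) ≤ l := by
      have h2 := thr_le (l / S.card)
      push_cast at h2
      calc (S.card : ℝ) * thr (l / S.card) ≤ S.card * (l / S.card) :=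
            mul_le_mul_of_nonneg_left h2 hSpos.le
        _ = l := by field_simp
    have h2 := base_bound (Γ := Γ) (F := S) (a := l / S.card) hLle hl'.le (n := K) (by omega)
    have h3 := h1.trans_le h2
    have hG0 : 0 < gbound (thr (l / S.card)) l (K + 1) (l + K) K := by
      rw [gbound_eq]
      have h4 : 0 < ∑ j ∈ Finset.range (K + 1), (l : ℝ) ^ j :=
        Finset.sum_pos (fun j _ => by positivity) (by simp)
      have h5 : 0 ≤ thr (l / S.card) * ∑ j ∈ Finset.range K,
          ((l : ℝ) * j * ((K : ℝ) + 1) * (l + K) ^ j + ((K : ℝ) + 1) * (l + K) ^ j) := by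
        refine mul_nonneg (thr_nonneg _) (Finset.sum_nonneg fun j _ => by positivity)
      linarith
    rw [mul_comm] at h3
    have h6 := lt_of_mul_lt_mul_left h3 hG0.le
    refine h6.trans_le (measureReal_mono ?_ (measure_ne_top _ _))
    exact big_mono (fun _ _ => le_rfl) le_rfl (Nat.le_succ K) 1

end Pool.Agent.Lib.MP_da416c_pr
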