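import Mathlib

/-!
# The percolation threshold of a countable group: definitions
-/

open MeasureTheory ProbabilityTheory
open scoped ENNReal NNReal

namespace Pool.Agent.Lib.MP_da416c_pr

/-- A generating measure on a group: a symmetric probability measure on the group whose support
generates the group. -/
structure GeneratingMeasure (Γ : Type*) [Group Γ] where
  /-- the underlying probability mass function -/
  toPMF : PMF Γ
  symm : ∀ g : Γ, toPMF g⁻¹ = toPMF g
  generates : Subgroup.closure toPMF.support = ⊤

variable {Γ : Type*} [Group Γ]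

/-- The mean `l * μ (g⁻¹ h)` of the number of parallel edges joining `g` and `h`. -/
noncomputable def edgeMean (μ : GeneratingMeasure Γ) (l : ℝ≥0) : Sym2 Γ → ℝ≥0 :=
  Sym2.lift ⟨fun g h => l * (μ.toPMF (g⁻¹ * h)).toNNReal, fun g h => by
    have h1 : h⁻¹ * g = (g⁻¹ * h)⁻¹ := by group
    have h2 : μ.toPMF (h⁻¹ * g) = μ.toPMF (g⁻¹ * h) := by rw [h1, μ.symm]
    simp only [h2]⟩

/-- The law of the numbers of parallel edges: independent Poisson variables, one for each
unordered pair, the one for `s(g, h)` with mean `l * μ (g⁻¹ h)`. -/
noncomputable def edgeLaw (μ : GeneratingMeasure Γ) (l : ℝ≥0) : Measure (Sym2 Γ → ℕ) :=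
  Measure.infinitePi fun e => poissonMeasure (edgeMean μ l e)

/-- The graph in which two distinct vertices are adjacent if at least one edge joins them. -/
def toGraph {V : Type*} (N : Sym2 V → ℕ) : SimpleGraph V :=
  SimpleGraph.fromEdgeSet {e | 0 < N e}

/-- The graph has an infinite connected component. -/
def HasInfiniteComponent {V : Type*} (G : SimpleGraph V) : Prop :=
  ∃ c : G.ConnectedComponent, c.supp.Infinite

/-- `λ_c(μ)`, the supremum of the `l > 0` such that the random graph with parameter `l` almost
surely has no infinite connected component. -/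
noncomputable def lambdaC (μ : GeneratingMeasure Γ) : ℝ≥0∞ :=
  sSup {x : ℝ≥0∞ | ∃ l : ℝ≥0, 0 < l ∧
    edgeLaw μ l {N | HasInfiniteComponent (toGraph N)} = 0 ∧ x = l}

variable (Γ) in
/-- The percolation threshold `λ_c(Γ)` of the group, the infimum of `λ_c(μ)` over all generating
measures `μ`. -/
noncomputable def percThreshold : ℝ≥0∞ := ⨅ μ : GeneratingMeasure Γ, lambdaC μ

end Pool.Agent.Lib.MP_da416c_pr
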