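import Mathlib

/-!
# Long-range percolation realised by independent uniform variables
-/

open MeasureTheory ProbabilityTheory
open scoped ENNReal NNReal

namespace Pool.Agent.Lib.MP_da416c_pr

/-- A configuration: one real number for every unordered pair of vertices. -/
abbrev Cfg (V : Type*) := Sym2 V → ℝ

/-- The uniform law on `[0, 1]`. -/
noncomputable def unif : Measure ℝ := volume.restrict (Set.Icc 0 1)

instance : IsProbabilityMeasure unif := ⟨by simp [unif]⟩

theorem unif_Iio {a : ℝ} (h1 : a ≤ 1) : unif (Set.Iio a) = ENNReal.ofReal a := by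
  rw [unif, Measure.restrict_apply measurableSet_Iio]
  have : Set.Iio a ∩ Set.Icc 0 1 = Set.Ico 0 a := by
    ext x
    simp only [Set.mem_inter_iff, Set.mem_Iio, Set.mem_Icc, Set.mem_Ico]
    constructor
    · rintro ⟨h2, h3, _⟩
      exact ⟨h3, h2⟩
    · rintro ⟨h2, h3⟩
      exact ⟨h3, h2, by linarith⟩
  rw [this, Real.volume_Ico, sub_zero]

/-- The product of the uniform laws. -/
noncomputable def prob (V : Type*) : Measure (Cfg V) := Measure.infinitePi fun _ => unif

instance {V : Type*} : IsProbabilityMeasure (prob V) := by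
  unfold prob; infer_instance

/-- The opening probability of an edge of weight `w`. -/
noncomputable def thr (w : ℝ≥0) : ℝ := 1 - Real.exp (-(w : ℝ))

theorem thr_nonneg (w : ℝ≥0) : 0 ≤ thr w := by
  unfold thr
  have : Real.exp (-(w : ℝ)) ≤ 1 := Real.exp_le_one_iff.mpr (by simp)
  linarith

theorem thr_le_one (w : ℝ≥0) : thr w ≤ 1 := by
  unfold thr
  have := Real.exp_pos (-(w : ℝ))
  linarith

theorem thr_lt_one (w : ℝ≥0) : thr w < 1 := by
  unfold thr
  have := Real.exp_pos (-(w : ℝ))
  linarith

theorem thr_mono {w w' : ℝ≥0} (h : w ≤ w') : thr w ≤ thr w' := by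
  unfold thr
  have h1 : (w : ℝ) ≤ w' := by exact_mod_cast h
  have : Real.exp (-(w' : ℝ)) ≤ Real.exp (-(w : ℝ)) := Real.exp_le_exp.mpr (by linarith)
  linarith

theorem thr_le (w : ℝ≥0) : thr w ≤ w := by
  unfold thr
  have := Real.add_one_le_exp (-(w : ℝ))
  linarith

@[simp] theorem thr_zero : thr 0 = 0 := by simp [thr]

variable {V : Type*}

/-- The events depending only on the edges in `S`. -/
@[reducible] def sig (S : Set (Sym2 V)) : MeasurableSpace (Cfg V) :=
  ⨆ e ∈ S, MeasurableSpace.comap (fun U : Cfg V => U e) inferInstance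

theorem sig_mono {S T : Set (Sym2 V)} (h : S ⊆ T) : sig S ≤ sig T :=
  biSup_mono fun _ he => h he

theorem sig_le (S : Set (Sym2 V)) : sig S ≤ (inferInstance : MeasurableSpace (Cfg V)) := by
  unfold sig
  refine iSup₂_le fun e _ => ?_
  exact (measurable_pi_apply e).comap_le

theorem measurableSet_lt_sig {S : Set (Sym2 V)} {e : Sym2 V} (he : e ∈ S) (a : ℝ) :
    MeasurableSet[sig S] {U : Cfg V | U e < a} := by
  have h1 : MeasurableSpace.comap (fun U : Cfg V => U e) inferInstance ≤ sig S :=
    le_iSup₂_of_le (f := fun e (_ : e ∈ S) =>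
      MeasurableSpace.comap (fun U : Cfg V => U e) inferInstance) e he le_rfl
  exact h1 _ ⟨Set.Iio a, measurableSet_Iio, rfl⟩

theorem prob_lt {e : Sym2 V} {a : ℝ} (h1 : a ≤ 1) :
    prob V {U : Cfg V | U e < a} = ENNReal.ofReal a := by
  have h := (measurePreserving_eval_infinitePi (fun _ : Sym2 V => unif) e).measure_preimage
    (s := Set.Iio a) measurableSet_Iio.nullMeasurableSet
  rw [unif_Iio h1] at h
  exact h

theorem indep_sig {S T : Set (Sym2 V)} (h : Disjoint S T) : Indep (sig S) (sig T) (prob V) := by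
  refine indep_iSup_of_disjoint (fun e => (measurable_pi_apply e).comap_le) ?_ h
  have := iIndepFun_infinitePi (P := fun _ : Sym2 V => unif) (X := fun _ x => x)
    (fun _ => measurable_id)
  exact this

theorem prob_inter {S T : Set (Sym2 V)} (h : Disjoint S T) {A B : Set (Cfg V)}
    (hA : MeasurableSet[sig S] A) (hB : MeasurableSet[sig T] B) :
    prob V (A ∩ B) = prob V A * prob V B :=
  (Indep_iff _ _ _).mp (indep_sig h) A B hA hB

theorem prob_biInter {ι : Type*} (s : Finset ι) (S : ι → Set (Sym2 V)) (A : ι → Set (Cfg V))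
    (hd : ∀ i ∈ s, ∀ j ∈ s, i ≠ j → Disjoint (S i) (S j))
    (hA : ∀ i ∈ s, MeasurableSet[sig (S i)] (A i)) :
    prob V (⋂ i ∈ s, A i) = ∏ i ∈ s, prob V (A i) := by
  classical
  induction s using Finset.induction_on with
  | empty => simp
  | insert a s ha ih =>
    rw [Finset.prod_insert ha, Finset.set_biInter_insert,
      prob_inter (S := S a) (T := ⋃ i ∈ s, S i) ?_ (hA a (Finset.mem_insert_self a s)) ?_,
      ih (fun i hi j hj => hd i (Finset.mem_insert_of_mem hi) j (Finset.mem_insert_of_mem hj))
        (fun i hi => hA i (Finset.mem_insert_of_mem hi))]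
    · rw [Set.disjoint_iUnion₂_right]
      intro i hi
      refine hd a (Finset.mem_insert_self a s) i (Finset.mem_insert_of_mem hi) ?_
      rintro rfl
      exact ha hi
    · refine Finset.measurableSet_biInter s fun i hi => ?_
      refine sig_mono ?_ _ (hA i (Finset.mem_insert_of_mem hi))
      exact Set.subset_biUnion_of_mem (u := S) hi

/-- The edges with both endpoints in `B`. -/
def inside (B : Set V) : Set (Sym2 V) := {e | ∀ x ∈ e, x ∈ B}

theorem mk_mem_inside {B : Set V} {x y : V} : s(x, y) ∈ inside B ↔ x ∈ B ∧ y ∈ B := by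
  simp [inside]

theorem inside_mono {B C : Set V} (h : B ⊆ C) : inside B ⊆ inside C :=
  fun _ he x hx => h (he x hx)

/-- The open graph of weight `W` inside the window `B`. -/
def openGraph (W : Sym2 V → ℝ≥0) (B : Set V) (U : Cfg V) : SimpleGraph V :=
  SimpleGraph.fromEdgeSet {e | e ∈ inside B ∧ U e < thr (W e)}

theorem openGraph_adj {W : Sym2 V → ℝ≥0} {B : Set V} {U : Cfg V} {x y : V} :
    (openGraph W B U).Adj x y ↔ (s(x, y) ∈ inside B ∧ U s(x, y) < thr (W s(x, y))) ∧ x ≠ y := by
  simp [openGraph]

theorem openGraph_mono {W W' : Sym2 V → ℝ≥0} {B B' : Set V} (hW : ∀ e ∈ inside B, W e ≤ W' e)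
    (hB : B ⊆ B') (U : Cfg V) : openGraph W B U ≤ openGraph W' B' U := by
  intro x y h
  rw [openGraph_adj] at h ⊢
  exact ⟨⟨inside_mono hB h.1.1, h.1.2.trans_le (thr_mono (hW _ h.1.1))⟩, h.2⟩

/-- The cluster of `x`. -/
def cluster (W : Sym2 V → ℝ≥0) (B : Set V) (U : Cfg V) (x : V) : Set V :=
  {y | (openGraph W B U).Reachable x y}

theorem mem_cluster_self {W : Sym2 V → ℝ≥0} {B : Set V} {U : Cfg V} {x : V} :
    x ∈ cluster W B U x := SimpleGraph.Reachable.refl x

theorem cluster_mono {W W' : Sym2 V → ℝ≥0} {B B' : Set V} (hW : ∀ e ∈ inside B, W e ≤ W' e)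
    (hB : B ⊆ B') (U : Cfg V) (x : V) : cluster W B U x ⊆ cluster W' B' U x :=
  fun _ hy => SimpleGraph.Reachable.mono (openGraph_mono hW hB U) hy

theorem cluster_subset {W : Sym2 V → ℝ≥0} {B : Set V} {U : Cfg V} {x : V} (hx : x ∈ B) :
    cluster W B U x ⊆ B := by
  intro y hy
  obtain ⟨p⟩ := hy
  induction p with
  | nil => exact hx
  | cons h p ih =>
    rw [openGraph_adj, mk_mem_inside] at h
    exact ih h.1.1.2

/-- Reachability in exactly `n` steps, as an event. -/
def reachN (W : Sym2 V → ℝ≥0) (B : Set V) (y : V) : ℕ → V → Set (Cfg V)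
  | 0, x => {_U | x = y}
  | n + 1, x => ⋃ z, ({U | (openGraph W B U).Adj x z} ∩ reachN W B y n z)

theorem reachable_iff {W : Sym2 V → ℝ≥0} {B : Set V} {U : Cfg V} {x y : V} :
    (openGraph W B U).Reachable x y ↔ ∃ n, U ∈ reachN W B y n x := by
  constructor
  · rintro ⟨p⟩
    induction p with
    | nil => exact ⟨0, rfl⟩
    | @cons u v w h p ih =>
      obtain ⟨n, hn⟩ := ih
      refine ⟨n + 1, ?_⟩
      simp only [reachN, Set.mem_iUnion]
      exact ⟨v, h, hn⟩
  · rintro ⟨n, hn⟩
    induction n generalizing x with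
    | zero =>
      have : x = y := hn
      rw [this]
    | succ n ih =>
      simp only [reachN, Set.mem_iUnion] at hn
      obtain ⟨z, hz, hn⟩ := hn
      have hz' : (openGraph W B U).Adj x z := hz
      exact hz'.reachable.trans (ih hn)

theorem measurableSet_adj_sig (W : Sym2 V → ℝ≥0) (B : Set V) (x y : V) :
    MeasurableSet[sig (inside B)] {U : Cfg V | (openGraph W B U).Adj x y} := by
  by_cases h : s(x, y) ∈ inside B ∧ x ≠ y
  · have : {U : Cfg V | (openGraph W B U).Adj x y} = {U : Cfg V | U s(x, y) < thr (W s(x, y))} := by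
      ext U
      simp only [Set.mem_ofPred_eq, openGraph_adj]
      tauto
    rw [this]
    exact measurableSet_lt_sig h.1 _
  · have : {U : Cfg V | (openGraph W B U).Adj x y} = ∅ := by
      ext U
      simp only [Set.mem_ofPred_eq, openGraph_adj, Set.mem_empty_iff_false]
      tauto
    rw [this]
    exact @MeasurableSet.empty _ (sig (inside B))

variable [Countable V]

theorem measurableSet_reachN_sig (W : Sym2 V → ℝ≥0) (B : Set V) (y : V) (n : ℕ) (x : V) :
    MeasurableSet[sig (inside B)] (reachN W B y n x) := by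
  induction n generalizing x with
  | zero =>
    by_cases h : x = y
    · have : reachN W B y 0 x = Set.univ := by ext U; simp [reachN, h]
      rw [this]
      exact @MeasurableSet.univ _ (sig (inside B))
    · have : reachN W B y 0 x = ∅ := by ext U; simp [reachN, h]
      rw [this]
      exact @MeasurableSet.empty _ (sig (inside B))
  | succ n ih =>
    simp only [reachN]
    refine MeasurableSet.iUnion fun z => ?_
    exact @MeasurableSet.inter _ (sig (inside B)) _ _ (measurableSet_adj_sig W B x z) (ih z)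

theorem measurableSet_reachable_sig (W : Sym2 V → ℝ≥0) (B : Set V) (x y : V) :
    MeasurableSet[sig (inside B)] {U : Cfg V | (openGraph W B U).Reachable x y} := by
  have : {U : Cfg V | (openGraph W B U).Reachable x y} = ⋃ n, reachN W B y n x := by
    ext U
    simp only [Set.mem_ofPred_eq, Set.mem_iUnion]
    exact reachable_iff
  rw [this]
  exact MeasurableSet.iUnion fun n => measurableSet_reachN_sig W B y n x

/-- The event that the cluster of `x` has at least `K` vertices. -/
def big (W : Sym2 V → ℝ≥0) (B : Set V) (K : ℕ) (x : V) : Set (Cfg V) :=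
  {U | (K : ℕ∞) ≤ (cluster W B U x).encard}

omit [Countable V] in
theorem big_eq (W : Sym2 V → ℝ≥0) (B : Set V) (K : ℕ) (x : V) :
    big W B K x = ⋃ T : {T : Finset V // T.card = K},
      ⋂ y ∈ T.1, {U | (openGraph W B U).Reachable x y} := by
  ext U
  simp only [big, Set.mem_ofPred_eq, Set.mem_iUnion, Set.mem_iInter]
  constructor
  · intro h
    obtain ⟨t, ht, hcard⟩ := Set.exists_subset_encard_eq h
    have hfin : t.Finite := Set.finite_of_encard_eq_coe hcard
    refine ⟨⟨hfin.toFinset, ?_⟩, ?_⟩
    · rw [Set.Finite.encard_eq_coe_toFinset_card hfin] at hcard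
      exact_mod_cast hcard
    · intro y hy
      exact ht (by simpa using hy)
  · rintro ⟨⟨T, hT⟩, h⟩
    have h1 : ((T : Set V)).encard ≤ (cluster W B U x).encard :=
      Set.encard_le_encard fun y hy => h y (by simpa using hy)
    rwa [Set.encard_coe_eq_coe_finsetCard, hT] at h1

theorem measurableSet_big_sig (W : Sym2 V → ℝ≥0) (B : Set V) (K : ℕ) (x : V) :
    MeasurableSet[sig (inside B)] (big W B K x) := by
  rw [big_eq]
  refine MeasurableSet.iUnion fun T => ?_
  exact Finset.measurableSet_biInter _ fun y _ => measurableSet_reachable_sig W B x y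

theorem measurableSet_big (W : Sym2 V → ℝ≥0) (B : Set V) (K : ℕ) (x : V) :
    MeasurableSet (big W B K x) := sig_le _ _ (measurableSet_big_sig W B K x)

omit [Countable V] in
theorem big_mono {W W' : Sym2 V → ℝ≥0} {B B' : Set V} (hW : ∀ e ∈ inside B, W e ≤ W' e)
    (hB : B ⊆ B') {K K' : ℕ} (hK : K' ≤ K) (x : V) : big W B K x ⊆ big W' B' K' x := by
  intro U hU
  have h1 : (cluster W B U x).encard ≤ (cluster W' B' U x).encard :=
    Set.encard_le_encard (cluster_mono hW hB U x)
  have h2 : (K' : ℕ∞) ≤ K := by exact_mod_cast hK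
  exact h2.trans (le_trans hU h1)

/-- The probability of a big cluster is approximated by windows. -/
theorem exists_window (W : Sym2 V → ℝ≥0) (K : ℕ) (x : V) {c : ℝ≥0∞}
    (h : c < prob V (big W Set.univ K x)) :
    ∃ B : Finset V, x ∈ B ∧ c < prob V (big W (B : Set V) K x) := by
  classical
  have hcov : big W Set.univ K x ⊆ ⋃ B : Finset V, big W (B : Set V) K x := by
    intro U hU
    rw [big_eq] at hU
    simp only [Set.mem_iUnion, Set.mem_iInter, Set.mem_ofPred_eq] at hU
    obtain ⟨⟨T, hT⟩, h1⟩ := hU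
    have key : ∀ (a b : V) (q : (openGraph W Set.univ U).Walk a b) (B : Set V),
        (∀ v ∈ q.support, v ∈ B) → (openGraph W B U).Reachable a b := by
      intro a b q B
      induction q with
      | nil => intro _; exact SimpleGraph.Reachable.refl _
      | @cons u v w hadj q ih =>
        intro hq
        have hu : u ∈ B := hq u (by simp)
        have hv : v ∈ B := hq v (by simp)
        have h3 : (openGraph W B U).Adj u v := by
          rw [openGraph_adj] at hadj ⊢
          exact ⟨⟨mk_mem_inside.mpr ⟨hu, hv⟩, hadj.1.2⟩, hadj.2⟩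
        exact h3.reachable.trans (ih fun z hz => hq z (by simp [hz]))
    have hB : ∀ y, ∃ B : Finset V, y ∈ T → (openGraph W (B : Set V) U).Reachable x y := by
      intro y
      by_cases hy : y ∈ T
      · obtain ⟨q⟩ := h1 y hy
        exact ⟨q.support.toFinset, fun _ => key x y q _ fun v hv => by simpa using hv⟩
      · exact ⟨∅, fun h => absurd h hy⟩
    choose B hB using hB
    -- the window consisting of all vertices of the chosen walks
    refine Set.mem_iUnion.mpr ⟨T.biUnion B, ?_⟩
    rw [big_eq]
    simp only [Set.mem_iUnion, Set.mem_iInter, Set.mem_ofPred_eq]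
    refine ⟨⟨T, hT⟩, fun y hy => ?_⟩
    refine SimpleGraph.Reachable.mono (openGraph_mono (fun _ _ => le_rfl) ?_ U) (hB y hy)
    intro v hv
    simp only [Finset.coe_biUnion, Set.mem_iUnion]
    exact ⟨y, by simpa using hy, hv⟩
  have hdir : Directed (· ⊆ ·) fun B : Finset V => big W (B : Set V) K x := by
    intro B C
    refine ⟨B ∪ C, ?_, ?_⟩
    · exact big_mono (fun _ _ => le_rfl) (by simp) le_rfl x
    · exact big_mono (fun _ _ => le_rfl) (by simp) le_rfl x
  have h2 : c < ⨆ B : Finset V, prob V (big W (B : Set V) K x) := by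
    rw [← hdir.measure_iUnion]
    exact h.trans_le (measure_mono hcov)
  obtain ⟨B, hB⟩ := lt_iSup_iff.mp h2
  refine ⟨insert x B, Finset.mem_insert_self x B, hB.trans_le (measure_mono ?_)⟩
  exact big_mono (fun _ _ => le_rfl) (by simp) le_rfl x

end Pool.Agent.Lib.MP_da416c_pr
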