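import Pool.Agent.Lib.MP_da416c_pr.Defs
import Pool.Agent.Lib.MP_da416c_pr.Space

/-!
# From Poisson multigraphs to uniform variables
-/

open MeasureTheory ProbabilityTheory
open scoped ENNReal NNReal

namespace Pool.Agent.Lib.MP_da416c_pr

section Measurability

variable {Ω V : Type*} [MeasurableSpace Ω]

/-- Reachability in exactly `n` steps in a random graph. -/
def reachG (O : Ω → Set (Sym2 V)) (y : V) : ℕ → V → Set Ω
  | 0, x => {_ω | x = y}
  | n + 1, x => ⋃ z, ({ω | (SimpleGraph.fromEdgeSet (O ω)).Adj x z} ∩ reachG O y n z)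

omit [MeasurableSpace Ω] in
theorem reachable_iff_reachG {O : Ω → Set (Sym2 V)} {ω : Ω} {x y : V} :
    (SimpleGraph.fromEdgeSet (O ω)).Reachable x y ↔ ∃ n, ω ∈ reachG O y n x := by
  constructor
  · rintro ⟨p⟩
    induction p with
    | nil => exact ⟨0, rfl⟩
    | @cons u v w h p ih =>
      obtain ⟨n, hn⟩ := ih
      refine ⟨n + 1, ?_⟩
      simp only [reachG, Set.mem_iUnion]
      exact ⟨v, h, hn⟩
  · rintro ⟨n, hn⟩
    induction n generalizing x with
    | zero =>
      have : x = y := hn
      rw [this]
    | succ n ih =>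
      simp only [reachG, Set.mem_iUnion] at hn
      obtain ⟨z, hz, hn⟩ := hn
      have hz' : (SimpleGraph.fromEdgeSet (O ω)).Adj x z := hz
      exact hz'.reachable.trans (ih hn)

variable [Countable V]

theorem measurableSet_reachable_gen {O : Ω → Set (Sym2 V)}
    (hO : ∀ e, MeasurableSet {ω | e ∈ O ω}) (x y : V) :
    MeasurableSet {ω | (SimpleGraph.fromEdgeSet (O ω)).Reachable x y} := by
  have hadj : ∀ a b : V, MeasurableSet {ω | (SimpleGraph.fromEdgeSet (O ω)).Adj a b} := by
    intro a b
    by_cases h : a = b
    · have : {ω | (SimpleGraph.fromEdgeSet (O ω)).Adj a b} = ∅ := by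
        ext ω; simp [h]
      rw [this]; exact MeasurableSet.empty
    · have : {ω | (SimpleGraph.fromEdgeSet (O ω)).Adj a b} = {ω | s(a, b) ∈ O ω} := by
        ext ω; simp [h]
      rw [this]; exact hO _
  have hn : ∀ n a, MeasurableSet (reachG O y n a) := by
    intro n
    induction n with
    | zero =>
      intro a
      by_cases h : a = y
      · have : reachG O y 0 a = Set.univ := by ext ω; simp [reachG, h]
        rw [this]; exact MeasurableSet.univ
      · have : reachG O y 0 a = ∅ := by ext ω; simp [reachG, h]
        rw [this]; exact MeasurableSet.empty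
    | succ n ih =>
      intro a
      simp only [reachG]
      exact MeasurableSet.iUnion fun z => (hadj a z).inter (ih z)
  have : {ω | (SimpleGraph.fromEdgeSet (O ω)).Reachable x y} = ⋃ n, reachG O y n x := by
    ext ω
    simp only [Set.mem_ofPred_eq, Set.mem_iUnion]
    exact reachable_iff_reachG
  rw [this]
  exact MeasurableSet.iUnion fun n => hn n x

end Measurability

theorem hasInfiniteComponent_iff {V : Type*} (G : SimpleGraph V) :
    HasInfiniteComponent G ↔ ∃ x, {y | G.Reachable x y}.Infinite := by
  unfold HasInfiniteComponent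
  constructor
  · rintro ⟨c, hc⟩
    induction c using SimpleGraph.ConnectedComponent.ind with
    | _ x =>
      refine ⟨x, ?_⟩
      convert hc using 1
      ext y
      simp only [Set.mem_ofPred_eq, SimpleGraph.ConnectedComponent.mem_supp_iff,
        SimpleGraph.ConnectedComponent.eq]
      exact SimpleGraph.reachable_comm
  · rintro ⟨x, hx⟩
    refine ⟨G.connectedComponentMk x, ?_⟩
    convert hx using 1
    ext y
    simp only [Set.mem_ofPred_eq, SimpleGraph.ConnectedComponent.mem_supp_iff,
      SimpleGraph.ConnectedComponent.eq]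
    exact SimpleGraph.reachable_comm

theorem measurableSet_hasInfiniteComponent {Ω V : Type*} [MeasurableSpace Ω] [Countable V]
    {O : Ω → Set (Sym2 V)} (hO : ∀ e, MeasurableSet {ω | e ∈ O ω}) :
    MeasurableSet {ω | HasInfiniteComponent (SimpleGraph.fromEdgeSet (O ω))} := by
  have : {ω | HasInfiniteComponent (SimpleGraph.fromEdgeSet (O ω))}
      = ⋃ x : V, ⋂ K : ℕ, ⋃ T : {T : Finset V // T.card = K},
        ⋂ y ∈ T.1, {ω | (SimpleGraph.fromEdgeSet (O ω)).Reachable x y} := by
    ext ω
    simp only [Set.mem_ofPred_eq, Set.mem_iUnion, Set.mem_iInter, hasInfiniteComponent_iff]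
    refine exists_congr fun x => ?_
    constructor
    · intro h K
      obtain ⟨T, hT, hcard⟩ := h.exists_subset_card_eq K
      exact ⟨⟨T, hcard⟩, fun y hy => hT (by exact_mod_cast hy)⟩
    · intro h hfin
      obtain ⟨⟨T, hT⟩, h1⟩ := h (hfin.toFinset.card + 1)
      have h2 : T ⊆ hfin.toFinset := fun y hy => by
        rw [hfin.mem_toFinset]; exact h1 y hy
      have := Finset.card_le_card h2
      omega
  rw [this]
  exact MeasurableSet.iUnion fun x => MeasurableSet.iInter fun K => MeasurableSet.iUnion fun T =>
    Finset.measurableSet_biInter _ fun y _ => measurableSet_reachable_gen hO x y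

/-- Both one-edge laws give the same law of the indicator of being open. -/
theorem map_poisson_eq (w : ℝ≥0) :
    (poissonMeasure w).map (fun n : ℕ => (0 < n : Prop)) = unif.map (fun u : ℝ => u < thr w) := by
  have hm1 : Measurable (fun n : ℕ => (0 < n : Prop)) := measurable_of_countable _
  have hm2 : Measurable (fun u : ℝ => u < thr w) :=
    measurableSet_setOf.mp measurableSet_Iio
  have hfalse : ((poissonMeasure w).map (fun n : ℕ => (0 < n : Prop))) {False}
      = (unif.map (fun u : ℝ => u < thr w)) {False} := by
    rw [Measure.map_apply hm1 (MeasurableSet.singleton _),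
      Measure.map_apply hm2 (MeasurableSet.singleton _)]
    have h1 : (fun n : ℕ => (0 < n : Prop)) ⁻¹' {False} = {0} := by
      ext n
      simp
    have h2 : (fun u : ℝ => u < thr w) ⁻¹' {False} = (Set.Iio (thr w))ᶜ := by
      ext u
      simp
    rw [h1, h2, poissonMeasure_singleton, prob_compl_eq_one_sub measurableSet_Iio,
      unif_Iio (thr_le_one w)]
    have h3 : (1 : ℝ≥0∞) = ENNReal.ofReal 1 := by simp
    rw [h3, ← ENNReal.ofReal_sub _ (thr_nonneg w)]
    congr 1
    simp [thr]
  have hp1 : IsProbabilityMeasure ((poissonMeasure w).map (fun n : ℕ => (0 < n : Prop))) :=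
    Measure.isProbabilityMeasure_map hm1.aemeasurable
  have hp2 : IsProbabilityMeasure (unif.map (fun u : ℝ => u < thr w)) :=
    Measure.isProbabilityMeasure_map hm2.aemeasurable
  have htrue : ((poissonMeasure w).map (fun n : ℕ => (0 < n : Prop))) {True}
      = (unif.map (fun u : ℝ => u < thr w)) {True} := by
    have h1 : ({True} : Set Prop) = {False}ᶜ := by
      ext p
      simp [eq_iff_iff]
    rw [h1, prob_compl_eq_one_sub (MeasurableSet.singleton _),
      prob_compl_eq_one_sub (MeasurableSet.singleton _), hfalse]
  refine Measure.ext_of_singleton fun p => ?_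
  by_cases hp : p
  · have : p = True := eq_true hp
    rw [this]; exact htrue
  · have : p = False := eq_false hp
    rw [this]; exact hfalse

theorem openGraph_univ {V : Type*} (W : Sym2 V → ℝ≥0) (U : Cfg V) :
    openGraph W Set.univ U = SimpleGraph.fromEdgeSet {e | U e < thr (W e)} := by
  ext x y
  simp [openGraph, inside]

/-- The random graph of the problem has an infinite component with the same probability as the
open graph built from uniform variables. -/
theorem edgeLaw_eq {Γ : Type*} [Group Γ] [Countable Γ] (μ : GeneratingMeasure Γ) (l : ℝ≥0) :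
    edgeLaw μ l {N | HasInfiniteComponent (toGraph N)}
      = prob Γ {U | HasInfiniteComponent (openGraph (edgeMean μ l) Set.univ U)} := by
  set H : Set (Sym2 Γ → Prop) :=
    {p | HasInfiniteComponent (SimpleGraph.fromEdgeSet {e | p e})} with hH
  have hHm : MeasurableSet H := by
    refine measurableSet_hasInfiniteComponent (O := fun p : Sym2 Γ → Prop => {e | p e}) fun e => ?_
    exact measurableSet_setOf.mpr (measurable_pi_apply e)
  have hm1 : ∀ e : Sym2 Γ, Measurable (fun n : ℕ => (0 < n : Prop)) :=
    fun _ => measurable_of_countable _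
  have hm2 : ∀ e : Sym2 Γ, Measurable (fun u : ℝ => u < thr (edgeMean μ l e)) :=
    fun _ => measurableSet_setOf.mp measurableSet_Iio
  have e1 : (edgeLaw μ l).map (fun N e => (0 < N e : Prop))
      = Measure.infinitePi fun e => (poissonMeasure (edgeMean μ l e)).map
        (fun n : ℕ => (0 < n : Prop)) :=
    Measure.infinitePi_map_pi (μ := fun e => poissonMeasure (edgeMean μ l e)) hm1
  have e2 : (prob Γ).map (fun U e => U e < thr (edgeMean μ l e))
      = Measure.infinitePi fun e => unif.map (fun u : ℝ => u < thr (edgeMean μ l e)) :=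
    Measure.infinitePi_map_pi (μ := fun _ : Sym2 Γ => unif) hm2
  have e3 : (edgeLaw μ l).map (fun N e => (0 < N e : Prop))
      = (prob Γ).map (fun U e => U e < thr (edgeMean μ l e)) := by
    rw [e1, e2]
    congr 1
    funext e
    exact map_poisson_eq _
  have hM1 : Measurable (fun (N : Sym2 Γ → ℕ) (e : Sym2 Γ) => (0 < N e : Prop)) :=
    measurable_pi_lambda _ fun e => (hm1 e).comp (measurable_pi_apply e)
  have hM2 : Measurable (fun (U : Cfg Γ) (e : Sym2 Γ) => U e < thr (edgeMean μ l e)) :=
    measurable_pi_lambda _ fun e => (hm2 e).comp (measurable_pi_apply e)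
  have e4 := congrArg (fun m => m H) e3
  rw [Measure.map_apply hM1 hHm, Measure.map_apply hM2 hHm] at e4
  have e5 : {U : Cfg Γ | HasInfiniteComponent (openGraph (edgeMean μ l) Set.univ U)}
      = (fun (U : Cfg Γ) (e : Sym2 Γ) => U e < thr (edgeMean μ l e)) ⁻¹' H := by
    ext U
    simp only [Set.mem_ofPred_eq, Set.mem_preimage, hH, openGraph_univ]
  rw [e5, ← e4]
  rfl

end Pool.Agent.Lib.MP_da416c_pr
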