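import Pool.Agent.Lib.MP_da416c_pr.Link

/-!
# The lower bound `1 ≤ λ_c(μ)`
-/

open MeasureTheory ProbabilityTheory Filter Topology
open scoped ENNReal NNReal

namespace Pool.Agent.Lib.MP_da416c_pr

variable {V : Type*}

/-- There is an open self-avoiding path of length `n` in `B` from `x` to `y`. -/
def pathEv (W : Sym2 V → ℝ≥0) : ℕ → Set V → V → V → Set (Cfg V)
  | 0, _, x, y => {_U | x = y}
  | n + 1, B, x, y => ⋃ z : V, ⋃ _ : z ∈ B \ {x},
      ({U | U s(x, z) < thr (W s(x, z))} ∩ pathEv W n (B \ {x}) z y)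

theorem mem_pathEv_of_isPath {W : Sym2 V → ℝ≥0} {U : Cfg V} {x y : V}
    (p : (openGraph W Set.univ U).Walk x y) (hp : p.IsPath) (B : Set V)
    (hB : ∀ z ∈ p.support, z ∈ B) : U ∈ pathEv W p.length B x y := by
  induction p generalizing B with
  | nil => rfl
  | @cons u v w h p ih =>
    rw [SimpleGraph.Walk.cons_isPath_iff] at hp
    simp only [SimpleGraph.Walk.length_cons, pathEv, Set.mem_iUnion]
    have hsup : ∀ z ∈ p.support, z ∈ B \ {u} := by
      intro z hz
      refine ⟨hB z (by simp [hz]), ?_⟩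
      intro hzu
      have hzu' : z = u := hzu
      exact hp.2 (hzu' ▸ hz)
    refine ⟨v, hsup v (by simp), ?_, ih hp.1 _ hsup⟩
    rw [openGraph_adj] at h
    exact h.1.2

variable [Countable V]

theorem measurableSet_pathEv_sig (W : Sym2 V → ℝ≥0) (n : ℕ) (B : Set V) (x y : V) (hx : x ∈ B) :
    MeasurableSet[sig (inside B)] (pathEv W n B x y) := by
  induction n generalizing B x with
  | zero =>
    by_cases h : x = y
    · have : pathEv W 0 B x y = Set.univ := by ext U; simp [pathEv, h]
      rw [this]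
      exact @MeasurableSet.univ _ (sig (inside B))
    · have : pathEv W 0 B x y = ∅ := by ext U; simp [pathEv, h]
      rw [this]
      exact @MeasurableSet.empty _ (sig (inside B))
  | succ n ih =>
    simp only [pathEv]
    refine MeasurableSet.iUnion fun z => MeasurableSet.iUnion fun hz => ?_
    refine @MeasurableSet.inter _ (sig (inside B)) _ _ ?_ ?_
    · exact measurableSet_lt_sig (mk_mem_inside.mpr ⟨hx, hz.1⟩) _
    · exact sig_mono (inside_mono Set.sdiff_subset) _ (ih (B \ {x}) z hz)

theorem tsum_pathEv_le {W : Sym2 V → ℝ≥0} {L : ℝ≥0∞}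
    (hL : ∀ x, ∑' z, (W s(x, z) : ℝ≥0∞) ≤ L) (n : ℕ) (B : Set V) (x : V) (hx : x ∈ B) :
    ∑' y, prob V (pathEv W n B x y) ≤ L ^ n := by
  induction n generalizing B x with
  | zero =>
    rw [pow_zero, tsum_eq_single x]
    · exact prob_le_one
    · intro y hy
      have : pathEv W 0 B x y = ∅ := by ext U; simp [pathEv, hy.symm]
      rw [this, measure_empty]
  | succ n ih =>
    classical
    have h1 : ∀ y, prob V (pathEv W (n + 1) B x y)
        ≤ ∑' z : V, (if z ∈ B \ {x} then
          (W s(x, z) : ℝ≥0∞) * prob V (pathEv W n (B \ {x}) z y) else 0) := by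
      intro y
      simp only [pathEv]
      refine (measure_iUnion_le _).trans (ENNReal.tsum_le_tsum fun z => ?_)
      by_cases hz : z ∈ B \ {x}
      · rw [if_pos hz]
        have hd : Disjoint ({s(x, z)} : Set (Sym2 V)) (inside (B \ {x})) := by
          rw [Set.disjoint_singleton_left, mk_mem_inside]
          rintro ⟨h2, _⟩
          exact h2.2 rfl
        have h4 : (⋃ _ : z ∈ B \ {x}, ({U : Cfg V | U s(x, z) < thr (W s(x, z))}
            ∩ pathEv W n (B \ {x}) z y))
            = {U : Cfg V | U s(x, z) < thr (W s(x, z))} ∩ pathEv W n (B \ {x}) z y := by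
          ext U; simp [hz]
        rw [h4, prob_inter hd (measurableSet_lt_sig (Set.mem_singleton _) _)
          (measurableSet_pathEv_sig W n (B \ {x}) z y hz)]
        gcongr
        rw [prob_lt (thr_le_one _)]
        calc ENNReal.ofReal (thr (W s(x, z))) ≤ ENNReal.ofReal (W s(x, z)) :=
              ENNReal.ofReal_le_ofReal (thr_le _)
          _ = (W s(x, z) : ℝ≥0∞) := ENNReal.ofReal_coe_nnreal
      · rw [if_neg hz]
        have h4 : (⋃ _ : z ∈ B \ {x}, ({U : Cfg V | U s(x, z) < thr (W s(x, z))}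
            ∩ pathEv W n (B \ {x}) z y)) = ∅ := by
          ext U
          simp only [Set.mem_iUnion, Set.mem_empty_iff_false, iff_false]
          rintro ⟨h5, _⟩
          exact hz h5
        rw [h4, measure_empty]
    calc ∑' y, prob V (pathEv W (n + 1) B x y)
        ≤ ∑' y, ∑' z : V, (if z ∈ B \ {x} then
          (W s(x, z) : ℝ≥0∞) * prob V (pathEv W n (B \ {x}) z y) else 0) :=
            ENNReal.tsum_le_tsum h1
      _ = ∑' z : V, ∑' y, (if z ∈ B \ {x} then
          (W s(x, z) : ℝ≥0∞) * prob V (pathEv W n (B \ {x}) z y) else 0) := ENNReal.tsum_comm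
      _ ≤ ∑' z : V, (W s(x, z) : ℝ≥0∞) * L ^ n := by
            refine ENNReal.tsum_le_tsum fun z => ?_
            by_cases hz : z ∈ B \ {x}
            · simp only [if_pos hz]
              rw [ENNReal.tsum_mul_left]
              gcongr
              exact ih (B \ {x}) z hz
            · simp only [if_neg hz, tsum_zero]
              exact zero_le
      _ = (∑' z : V, (W s(x, z) : ℝ≥0∞)) * L ^ n := ENNReal.tsum_mul_right
      _ ≤ L * L ^ n := by gcongr; exact hL x
      _ = L ^ (n + 1) := by rw [pow_succ]; ring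

/-- If the total weight at every vertex is at most `L < 1` there is no infinite cluster. -/
theorem no_infinite_of_lt_one {W : Sym2 V → ℝ≥0} {L : ℝ≥0∞}
    (hL : ∀ x, ∑' z, (W s(x, z) : ℝ≥0∞) ≤ L) (hL1 : L < 1) :
    prob V {U | HasInfiniteComponent (openGraph W Set.univ U)} = 0 := by
  have h1 : ∀ x : V, ∑' y, prob V {U | (openGraph W Set.univ U).Reachable x y} ≠ ∞ := by
    intro x
    have h2 : ∀ y, prob V {U | (openGraph W Set.univ U).Reachable x y}
        ≤ ∑' n, prob V (pathEv W n Set.univ x y) := by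
      intro y
      refine le_trans (measure_mono ?_) (measure_iUnion_le _)
      intro U hU
      obtain ⟨p, hp⟩ := SimpleGraph.Reachable.exists_isPath (show
        (openGraph W Set.univ U).Reachable x y from hU)
      exact Set.mem_iUnion.mpr ⟨p.length, mem_pathEv_of_isPath p hp _ fun _ _ => trivial⟩
    have h3 : ∑' y, prob V {U | (openGraph W Set.univ U).Reachable x y} ≤ ∑' n : ℕ, L ^ n := by
      refine (ENNReal.tsum_le_tsum h2).trans ?_
      rw [ENNReal.tsum_comm]
      exact ENNReal.tsum_le_tsum fun n => tsum_pathEv_le hL n Set.univ x trivial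
    refine ne_top_of_le_ne_top ?_ h3
    rw [ENNReal.tsum_geometric]
    exact ENNReal.inv_ne_top.mpr (tsub_pos_of_lt hL1).ne'
  have h2 : ∀ x : V, ∀ᵐ U ∂(prob V), {y | (openGraph W Set.univ U).Reachable x y}.Finite :=
    fun x => ae_finite_setOfPred_mem (h1 x)
  have h3 : ∀ᵐ U ∂(prob V), ¬ HasInfiniteComponent (openGraph W Set.univ U) := by
    filter_upwards [ae_all_iff.mpr h2] with U hU
    rw [hasInfiniteComponent_iff]
    rintro ⟨x, hx⟩
    exact hx (hU x)
  rw [ae_iff] at h3
  simpa using h3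

theorem one_le_lambdaC {Γ : Type*} [Group Γ] [Countable Γ] (μ : GeneratingMeasure Γ) :
    1 ≤ lambdaC μ := by
  refine le_of_forall_lt fun b hb => ?_
  obtain ⟨l, hl1, hl2⟩ := exists_between (a₁ := b) (a₂ := 1) hb
  have hltop : l ≠ ∞ := ne_top_of_lt hl2
  lift l to ℝ≥0 using hltop
  refine lt_of_lt_of_le hl1 (le_sSup ⟨l, ?_, ?_, rfl⟩)
  · have : (0 : ℝ≥0∞) < l := lt_of_le_of_lt zero_le hl1
    exact_mod_cast this
  · rw [edgeLaw_eq]
    refine no_infinite_of_lt_one (L := l) (fun x => ?_) hl2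
    have h1 : ∀ z, (edgeMean μ l s(x, z) : ℝ≥0∞) = l * μ.toPMF (x⁻¹ * z) := by
      intro z
      have : edgeMean μ l s(x, z) = l * (μ.toPMF (x⁻¹ * z)).toNNReal := rfl
      rw [this, ENNReal.coe_mul, ENNReal.coe_toNNReal (μ.toPMF.apply_ne_top _)]
    simp_rw [h1]
    rw [ENNReal.tsum_mul_left]
    have h2 : ∑' z, μ.toPMF (x⁻¹ * z) = ∑' z, μ.toPMF z :=
      (Equiv.mulLeft x⁻¹).tsum_eq fun z => μ.toPMF z
    rw [h2, PMF.tsum_coe, mul_one]

end Pool.Agent.Lib.MP_da416c_pr
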