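import Pool.Agent.Lib.MP_da416c_pr.Translate

/-!
# The doubling step

If the cluster of `1` has at least `K` vertices with probability more than `c`, then adding the
uniform measure on a suitable large finite symmetric set, with total weight `δ`, makes the cluster
have at least `2 K` vertices with probability more than `c (1 - exp (-c K δ / 4))`.
-/

open MeasureTheory ProbabilityTheory
open scoped ENNReal NNReal

namespace Pool.Agent.Lib.MP_da416c_pr

variable {Γ : Type*} [Group Γ]

section Sparse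

variable [DecidableEq Γ]

/-- The products `b f b'` with `b, b' ∈ B`. -/
def blk (B : Finset Γ) (f : Γ) : Finset Γ := (B ×ˢ B).image fun p => p.1 * f * p.2

theorem mem_blk {B : Finset Γ} {f z : Γ} : z ∈ blk B f ↔ ∃ a ∈ B, ∃ b ∈ B, a * f * b = z := by
  simp only [blk, Finset.mem_image, Finset.mem_product, Prod.exists]
  constructor
  · rintro ⟨a, b, ⟨ha, hb⟩, h⟩
    exact ⟨a, ha, b, hb, h⟩
  · rintro ⟨a, ha, b, hb, h⟩
    exact ⟨a, b, ⟨ha, hb⟩, h⟩

theorem self_mem_blk {B : Finset Γ} (hB : 1 ∈ B) (f : Γ) : f ∈ blk B f :=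
  mem_blk.mpr ⟨1, hB, 1, hB, by group⟩

theorem exists_sparse [Infinite Γ] (B : Finset Γ) (hB : 1 ∈ B) (n : ℕ) :
    ∃ F : Finset Γ, F.card = n ∧ (∀ f ∈ F, Disjoint B (blk B f)) ∧
      ∀ f ∈ F, ∀ f' ∈ F, f ≠ f' → Disjoint (blk B f) (blk B f') := by
  induction n with
  | zero => exact ⟨∅, by simp⟩
  | succ n ih =>
    obtain ⟨F, hcard, h1, h2⟩ := ih
    set C : Finset Γ := B ∪ F.biUnion (blk B) with hC
    set bad : Finset Γ := ((B ×ˢ C) ×ˢ B).image fun p => p.1.1⁻¹ * p.1.2 * p.2⁻¹ with hbad
    obtain ⟨f, hf⟩ := Infinite.exists_notMem_finset bad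
    have hdisj : Disjoint C (blk B f) := by
      rw [Finset.disjoint_left]
      intro z hz hz'
      obtain ⟨a, ha, b, hb, hab⟩ := mem_blk.mp hz'
      apply hf
      rw [hbad, Finset.mem_image]
      refine ⟨((a, z), b), by simp [ha, hb, hz], ?_⟩
      rw [← hab]
      group
    have hfF : f ∉ F := by
      intro hfF
      rw [Finset.disjoint_left] at hdisj
      refine hdisj (a := f) ?_ (self_mem_blk hB f)
      rw [hC, Finset.mem_union, Finset.mem_biUnion]
      exact Or.inr ⟨f, hfF, self_mem_blk hB f⟩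
    have hB1 : Disjoint B (blk B f) := Finset.disjoint_of_subset_left (by simp [hC]) hdisj
    have hF1 : ∀ f' ∈ F, Disjoint (blk B f') (blk B f) := by
      intro f' hf'
      refine Finset.disjoint_of_subset_left ?_ hdisj
      intro z hz
      rw [hC, Finset.mem_union, Finset.mem_biUnion]
      exact Or.inr ⟨f', hf', hz⟩
    refine ⟨insert f F, by rw [Finset.card_insert_of_notMem hfF, hcard], ?_, ?_⟩
    · intro g hg
      rcases Finset.mem_insert.mp hg with rfl | hg
      · exact hB1
      · exact h1 g hg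
    · intro g hg g' hg' hne
      rcases Finset.mem_insert.mp hg with rfl | hg
      · rcases Finset.mem_insert.mp hg' with rfl | hg'
        · exact absurd rfl hne
        · exact (hF1 g' hg').symm
      · rcases Finset.mem_insert.mp hg' with h3 | hg'
        · rw [h3]; exact hF1 g hg
        · exact h2 g hg g' hg' hne

end Sparse

section Union

variable [Countable Γ] [DecidableEq Γ]

set_option linter.unusedSectionVars false

/-- The event that `g` has a cluster with at least `K` vertices in the translated window. -/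
def bigAt (W : Sym2 Γ → ℝ≥0) (B : Finset Γ) (K : ℕ) (g : Γ) : Set (Cfg Γ) :=
  big W ((g * ·) '' (B : Set Γ)) K g

theorem prob_bigAt {W : Sym2 Γ → ℝ≥0} (hW : Inv W) (B : Finset Γ) (K : ℕ) (g : Γ) :
    prob Γ (bigAt W B K g) = prob Γ (big W (B : Set Γ) K 1) := by
  have := prob_big_tr hW (B : Set Γ) K g 1
  rw [mul_one] at this
  exact this

theorem image_subset_blk {B : Finset Γ} {y f : Γ} (hy : y ∈ B) :
    ((y * f * ·) '' (B : Set Γ)) ⊆ (blk B f : Set Γ) := by
  rintro z ⟨b, hb, rfl⟩
  exact mem_blk.mpr ⟨y, hy, b, hb, rfl⟩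

theorem measurableSet_bigAt {W : Sym2 Γ → ℝ≥0} {B : Finset Γ} {K : ℕ} {y f : Γ} (hy : y ∈ B) :
    MeasurableSet[sig (inside (blk B f : Set Γ))] (bigAt W B K (y * f)) :=
  sig_mono (inside_mono (image_subset_blk hy)) _
    (measurableSet_big_sig W ((y * f * ·) '' (B : Set Γ)) K (y * f))

/-- The event that some `y ∈ D` is joined to `y f`, which has a big cluster. -/
def someJoin (W : Sym2 Γ → ℝ≥0) (B : Finset Γ) (K : ℕ) (r : ℝ) (f : Γ) (D : Finset Γ) :
    Set (Cfg Γ) :=
  ⋃ y ∈ D, ({U | U s(y, y * f) < r} ∩ bigAt W B K (y * f))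

/-- The edges on which `someJoin` depends. -/
def joinEdges (B : Finset Γ) (f : Γ) (D : Finset Γ) : Set (Sym2 Γ) :=
  (fun y => s(y, y * f)) '' (D : Set Γ) ∪ inside (blk B f : Set Γ)

omit [Countable Γ] in
theorem joinEdges_mono {B : Finset Γ} {f : Γ} {D D' : Finset Γ} (h : D ⊆ D') :
    joinEdges B f D ⊆ joinEdges B f D' :=
  Set.union_subset_union_left _ (Set.image_mono (by exact_mod_cast h))

theorem measurableSet_someJoin {W : Sym2 Γ → ℝ≥0} {B : Finset Γ} {K : ℕ} {r : ℝ} {f : Γ}
    {D : Finset Γ} (hD : D ⊆ B) :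
    MeasurableSet[sig (joinEdges B f D)] (someJoin W B K r f D) := by
  unfold someJoin
  refine Finset.measurableSet_biUnion _ fun y hy => ?_
  refine @MeasurableSet.inter _ (sig (joinEdges B f D)) _ _ ?_ ?_
  · exact measurableSet_lt_sig (Or.inl ⟨y, by simpa using hy, rfl⟩) r
  · exact sig_mono Set.subset_union_right _ (measurableSet_bigAt (hD hy))

theorem real_inter {S T : Set (Sym2 Γ)} (h : Disjoint S T) {A B : Set (Cfg Γ)}
    (hA : MeasurableSet[sig S] A) (hB : MeasurableSet[sig T] B) :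
    (prob Γ).real (A ∩ B) = (prob Γ).real A * (prob Γ).real B := by
  simp only [measureReal_def, prob_inter h hA hB, ENNReal.toReal_mul]

theorem someJoin_ge {W : Sym2 Γ → ℝ≥0} (hW : Inv W) {B : Finset Γ} (h1B : 1 ∈ B) {K : ℕ}
    {r c : ℝ} {f : Γ} (hr0 : 0 ≤ r) (hr1 : r ≤ 1)
    (hc : c ≤ (prob Γ).real (big W (B : Set Γ) K 1))
    (hf : Disjoint B (blk B f)) (D : Finset Γ) (hD : D ⊆ B) :
    c * (1 - (1 - r) ^ D.card) ≤ (prob Γ).real (someJoin W B K r f D) := by
  induction D using Finset.induction_on with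
  | empty => simp
  | insert y D hy ih =>
    have hyB : y ∈ B := hD (Finset.mem_insert_self y D)
    have hDB : D ⊆ B := fun z hz => hD (Finset.mem_insert_of_mem hz)
    have ih' := ih hDB
    set O : Set (Cfg Γ) := {U | U s(y, y * f) < r} with hO
    set A := bigAt W B K (y * f) with hA
    set J := someJoin W B K r f D with hJ
    have hOm : MeasurableSet[sig {s(y, y * f)}] O :=
      measurableSet_lt_sig (Set.mem_singleton _) r
    have hAm : MeasurableSet[sig (inside (blk B f : Set Γ))] A := measurableSet_bigAt hyB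
    have hJm : MeasurableSet[sig (joinEdges B f D)] J := measurableSet_someJoin hDB
    have hynot : y ∉ blk B f := fun h => (Finset.disjoint_left.mp hf) hyB h
    have hd1 : Disjoint ({s(y, y * f)} : Set (Sym2 Γ)) (inside (blk B f : Set Γ)) := by
      rw [Set.disjoint_singleton_left, mk_mem_inside]
      rintro ⟨h1, _⟩
      exact hynot (by exact_mod_cast h1)
    have hd2 : Disjoint ({s(y, y * f)} : Set (Sym2 Γ)) (joinEdges B f D) := by
      rw [Set.disjoint_singleton_left]
      rintro (⟨z, hz, hzy⟩ | h1)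
      · have hz' : z ∈ D := by exact_mod_cast hz
        simp only [Sym2.eq_iff] at hzy
        rcases hzy with ⟨h2, _⟩ | ⟨_, h3⟩
        · exact hy (h2 ▸ hz')
        · apply hynot
          rw [← h3]
          exact mem_blk.mpr ⟨z, hDB hz', 1, h1B, by group⟩
      · rw [mk_mem_inside] at h1
        exact hynot (by exact_mod_cast h1.1)
    have hOmeas : MeasurableSet O := sig_le _ _ hOm
    have hAmeas : MeasurableSet A := sig_le _ _ hAm
    have hJmeas : MeasurableSet J := sig_le _ _ hJm
    have hPO : (prob Γ).real O = r := by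
      rw [measureReal_def, hO, prob_lt hr1, ENNReal.toReal_ofReal hr0]
    have hPOc : (prob Γ).real Oᶜ = 1 - r := by
      rw [probReal_compl_eq_one_sub hOmeas, hPO]
    have hPA : c ≤ (prob Γ).real A := by
      rw [measureReal_def, hA, prob_bigAt hW, ← measureReal_def]
      exact hc
    have e1 : (prob Γ).real (O ∩ A) = r * (prob Γ).real A := by
      rw [real_inter hd1 hOm hAm, hPO]
    have e2 : (prob Γ).real (Oᶜ ∩ J) = (1 - r) * (prob Γ).real J := by
      rw [real_inter hd2 (@MeasurableSet.compl _ _ (sig {s(y, y * f)}) hOm) hJm, hPOc]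
    have hsub : (O ∩ A) ∪ (Oᶜ ∩ J) ⊆ someJoin W B K r f (insert y D) := by
      rintro U (h | h)
      · refine Set.mem_biUnion (x := y) (Finset.mem_insert_self y D) h
      · obtain ⟨_, h2⟩ := h
        simp only [hJ, someJoin, Set.mem_iUnion] at h2
        obtain ⟨z, hz, h3⟩ := h2
        refine Set.mem_biUnion (x := z) (Finset.mem_insert_of_mem hz) h3
    have hdisj : Disjoint (O ∩ A) (Oᶜ ∩ J) := by
      rw [Set.disjoint_left]
      rintro U ⟨h2, _⟩ ⟨h3, _⟩
      exact h3 h2
    have h4 : (prob Γ).real ((O ∩ A) ∪ (Oᶜ ∩ J))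
        = (prob Γ).real (O ∩ A) + (prob Γ).real (Oᶜ ∩ J) :=
      measureReal_union hdisj (hOmeas.compl.inter hJmeas)
    have h5 := measureReal_mono (μ := prob Γ) hsub
    rw [h4, e1, e2] at h5
    rw [Finset.card_insert_of_notMem hy, pow_succ]
    have h6 : r * c ≤ r * (prob Γ).real A := mul_le_mul_of_nonneg_left hPA hr0
    have h7 : (1 - r) * (c * (1 - (1 - r) ^ D.card)) ≤ (1 - r) * (prob Γ).real J :=
      mul_le_mul_of_nonneg_left ih' (by linarith)
    nlinarith

/-- The event that the cluster of `1` in the window is exactly `D`. -/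
def clusterIs (W : Sym2 Γ → ℝ≥0) (B D : Finset Γ) : Set (Cfg Γ) :=
  {U | cluster W (B : Set Γ) U 1 = (D : Set Γ)}

theorem measurableSet_clusterIs (W : Sym2 Γ → ℝ≥0) {B D : Finset Γ} (h1B : 1 ∈ B) (hD : D ⊆ B) :
    MeasurableSet[sig (inside (B : Set Γ))] (clusterIs W B D) := by
  have h : clusterIs W B D = ⋂ y ∈ B, (if y ∈ D then
      {U : Cfg Γ | (openGraph W (B : Set Γ) U).Reachable 1 y}
      else {U : Cfg Γ | (openGraph W (B : Set Γ) U).Reachable 1 y}ᶜ) := by
    ext U
    simp only [clusterIs, Set.mem_ofPred_eq, Set.mem_iInter]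
    constructor
    · intro h y hy
      split_ifs with hyD
      · have : y ∈ cluster W (B : Set Γ) U 1 := by rw [h]; exact_mod_cast hyD
        exact this
      · intro h2
        have : y ∈ cluster W (B : Set Γ) U 1 := h2
        rw [h] at this
        exact hyD (by exact_mod_cast this)
    · intro h
      ext y
      constructor
      · intro hy
        have hyB : y ∈ B := by
          have := cluster_subset (W := W) (U := U) (B := (B : Set Γ)) (x := 1)
            (by exact_mod_cast h1B) hy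
          exact_mod_cast this
        by_contra hyD
        have h2 := h y hyB
        rw [if_neg (by exact_mod_cast hyD)] at h2
        exact h2 hy
      · intro hy
        have hyD : y ∈ D := by exact_mod_cast hy
        have h2 := h y (hD hyD)
        rw [if_pos hyD] at h2
        exact h2
  rw [h]
  refine Finset.measurableSet_biInter _ fun y _ => ?_
  split_ifs
  · exact measurableSet_reachable_sig W _ 1 y
  · exact @MeasurableSet.compl _ _ (sig (inside (B : Set Γ))) (measurableSet_reachable_sig W _ 1 y)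

theorem disjoint_joinEdges {B : Finset Γ} {f f' : Γ} {D : Finset Γ} (hD : D ⊆ B)
    (hf : Disjoint B (blk B f)) (hf' : Disjoint B (blk B f'))
    (hff : Disjoint (blk B f) (blk B f')) (h1B : 1 ∈ B) :
    Disjoint (joinEdges B f D) (joinEdges B f' D) := by
  rw [Finset.disjoint_left] at hf hf' hff
  rw [Set.disjoint_left]
  have hself : ∀ g : Γ, ∀ y ∈ D, y * g ∈ blk B g := fun g y hy =>
    mem_blk.mpr ⟨y, hD hy, 1, h1B, by group⟩
  rintro e (⟨y, hy, rfl⟩ | h1) (⟨z, hz, hzy⟩ | h2)
  · have hy' : y ∈ D := by exact_mod_cast hy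
    have hz' : z ∈ D := by exact_mod_cast hz
    simp only [Sym2.eq_iff] at hzy
    rcases hzy with ⟨h3, h4⟩ | ⟨h3, h4⟩
    · subst h3
      have h5 := hself f z hy'
      rw [← h4] at h5
      exact hff h5 (hself f' z hz')
    · exact hf (hD hz') (h3 ▸ hself f y hy')
  · have hy' : y ∈ D := by exact_mod_cast hy
    rw [mk_mem_inside] at h2
    exact hf' (hD hy') (by exact_mod_cast h2.1)
  · have hz' : z ∈ D := by exact_mod_cast hz
    subst hzy
    rw [mk_mem_inside] at h1
    exact hf (hD hz') (by exact_mod_cast h1.1)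
  · induction e with
    | _ a b =>
      rw [mk_mem_inside] at h1 h2
      exact hff (by exact_mod_cast h1.1) (by exact_mod_cast h2.1)

theorem disjoint_inside_joinEdges {B : Finset Γ} {f : Γ} {D : Finset Γ} (hD : D ⊆ B)
    (hf : Disjoint B (blk B f)) (h1B : 1 ∈ B) :
    Disjoint (inside (B : Set Γ)) (joinEdges B f D) := by
  rw [Finset.disjoint_left] at hf
  rw [Set.disjoint_left]
  rintro e h1 (⟨y, hy, rfl⟩ | h2)
  · have hy' : y ∈ D := by exact_mod_cast hy
    rw [mk_mem_inside] at h1
    exact hf (by exact_mod_cast h1.2) (mem_blk.mpr ⟨y, hD hy', 1, h1B, by group⟩)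
  · induction e with
    | _ a b =>
      rw [mk_mem_inside] at h1 h2
      exact hf (by exact_mod_cast h1.1) (by exact_mod_cast h2.1)

/-- If the cluster of `1` in the window is `D`, with at least `K` vertices, and some vertex of `D`
is joined to a vertex with a big cluster, then the cluster of `1` has at least `2 K` vertices. -/
theorem mem_big_of_join {W : Sym2 Γ → ℝ≥0} {B D F S : Finset Γ} {a : ℝ≥0} {K : ℕ}
    (hFS : F ⊆ S) (hsp : ∀ f ∈ F, Disjoint B (blk B f)) (h1B : 1 ∈ B) (hD : D ⊆ B)
    (hK : K ≤ D.card) {U : Cfg Γ} (hU : U ∈ clusterIs W B D) {f : Γ} (hf : f ∈ F)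
    (hj : U ∈ someJoin W B K (thr a) f D) :
    U ∈ big (W + ringW S a) Set.univ (2 * K) 1 := by
  simp only [someJoin, Set.mem_iUnion] at hj
  obtain ⟨y, hyD, hyf, hbig⟩ := hj
  have hyB : y ∈ B := hD hyD
  have hdis := Finset.disjoint_left.mp (hsp f hf)
  have hU' : cluster W (B : Set Γ) U 1 = (D : Set Γ) := hU
  set C := cluster W ((y * f * ·) '' (B : Set Γ)) U (y * f) with hC
  set G := openGraph (W + ringW S a) Set.univ U with hG
  have hle : ∀ B' : Set Γ, openGraph W B' U ≤ G := fun B' =>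
    openGraph_mono (fun e _ => by simp) (Set.subset_univ _) U
  have h1y : G.Reachable 1 y := by
    have : y ∈ cluster W (B : Set Γ) U 1 := by rw [hU']; exact_mod_cast hyD
    exact SimpleGraph.Reachable.mono (hle _) this
  have hyfblk : y * f ∈ blk B f := mem_blk.mpr ⟨y, hyB, 1, h1B, by group⟩
  have hadj : G.Adj y (y * f) := by
    rw [hG, openGraph_adj]
    refine ⟨⟨mk_mem_inside.mpr ⟨trivial, trivial⟩, ?_⟩, ?_⟩
    · have h2 : a ≤ (W + ringW S a) s(y, y * f) := by
        rw [Pi.add_apply, ringW_mk, if_pos]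
        · exact le_add_self
        · left
          rw [inv_mul_cancel_left]
          exact hFS hf
      exact lt_of_lt_of_le hyf (thr_mono h2)
    · intro h
      rw [← h] at hyfblk
      exact hdis hyB hyfblk
  have hsub : (D : Set Γ) ∪ C ⊆ cluster (W + ringW S a) Set.univ U 1 := by
    rintro z (hz | hz)
    · have : z ∈ cluster W (B : Set Γ) U 1 := by rw [hU']; exact hz
      exact SimpleGraph.Reachable.mono (hle _) this
    · exact (h1y.trans hadj.reachable).trans (SimpleGraph.Reachable.mono (hle _) hz)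
  have hmem : y * f ∈ (y * f * ·) '' (B : Set Γ) := ⟨1, by exact_mod_cast h1B, by simp⟩
  have hCsub : C ⊆ (blk B f : Set Γ) := (cluster_subset hmem).trans (image_subset_blk hyB)
  have hdisj : Disjoint (D : Set Γ) C := by
    rw [Set.disjoint_left]
    intro z hz hz'
    exact hdis (hD (by exact_mod_cast hz)) (by exact_mod_cast hCsub hz')
  have hDK : (K : ℕ∞) ≤ (D : Set Γ).encard := by
    rw [Set.encard_coe_eq_coe_finsetCard]; exact_mod_cast hK
  have hCK : (K : ℕ∞) ≤ C.encard := hbig
  show ((2 * K : ℕ) : ℕ∞) ≤ (cluster (W + ringW S a) Set.univ U 1).encard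
  calc ((2 * K : ℕ) : ℕ∞) = (K : ℕ∞) + K := by push_cast; ring
    _ ≤ (D : Set Γ).encard + C.encard := add_le_add hDK hCK
    _ = ((D : Set Γ) ∪ C).encard := (Set.encard_union_eq hdisj).symm
    _ ≤ _ := Set.encard_le_encard hsub

theorem step_window {W : Sym2 Γ → ℝ≥0} (hW : Inv W) {B F S : Finset Γ} (h1B : 1 ∈ B) {K : ℕ}
    {a : ℝ≥0} {c : ℝ} (hc0 : 0 ≤ c) (hc : c ≤ (prob Γ).real (big W (B : Set Γ) K 1))
    (hsp : ∀ f ∈ F, Disjoint B (blk B f))
    (hsp2 : ∀ f ∈ F, ∀ f' ∈ F, f ≠ f' → Disjoint (blk B f) (blk B f')) (hFS : F ⊆ S) :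
    (prob Γ).real (big W (B : Set Γ) K 1) * (1 - (1 - c * (1 - (1 - thr a) ^ K)) ^ F.card)
      ≤ (prob Γ).real (big (W + ringW S a) Set.univ (2 * K) 1) := by
  set r := thr a with hr
  have hr0 : 0 ≤ r := thr_nonneg a
  have hr1 : r ≤ 1 := thr_le_one a
  set q := (1 - c * (1 - (1 - r) ^ K)) ^ F.card with hq
  set 𝒟 := B.powerset.filter fun D => K ≤ D.card with h𝒟
  have hDB : ∀ D ∈ 𝒟, D ⊆ B ∧ K ≤ D.card := by
    intro D hD
    simpa [h𝒟] using hD
  -- no join for any `f ∈ F`
  set NF : Finset Γ → Set (Cfg Γ) := fun D => ⋂ f ∈ F, (someJoin W B K r f D)ᶜ with hNF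
  have hNFm : ∀ D ∈ 𝒟, MeasurableSet[sig (⋃ f ∈ F, joinEdges B f D)] (NF D) := by
    intro D hD
    refine Finset.measurableSet_biInter _ fun f hf => ?_
    refine @MeasurableSet.compl _ _ (sig _) ?_
    exact sig_mono (Set.subset_biUnion_of_mem (u := fun f => joinEdges B f D) hf) _
      (measurableSet_someJoin (hDB D hD).1)
  have hprobNF : ∀ D ∈ 𝒟, (prob Γ).real (NF D) ≤ q := by
    intro D hD
    obtain ⟨hD1, hD2⟩ := hDB D hD
    have h1 : prob Γ (NF D) = ∏ f ∈ F, prob Γ (someJoin W B K r f D)ᶜ :=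
      prob_biInter F (fun f => joinEdges B f D) (fun f => (someJoin W B K r f D)ᶜ)
        (fun f hf f' hf' hne =>
          disjoint_joinEdges hD1 (hsp f hf) (hsp f' hf') (hsp2 f hf f' hf' hne) h1B)
        (fun f _ => @MeasurableSet.compl _ _ (sig _) (measurableSet_someJoin hD1))
    rw [measureReal_def, h1, ENNReal.toReal_prod, hq, ← Finset.prod_const]
    refine Finset.prod_le_prod (fun f _ => ENNReal.toReal_nonneg) fun f hf => ?_
    rw [← measureReal_def, probReal_compl_eq_one_sub (sig_le _ _ (measurableSet_someJoin hD1))]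
    have h2 := someJoin_ge hW h1B (K := K) hr0 hr1 hc (hsp f hf) D hD1
    have h3 : (1 - r) ^ D.card ≤ (1 - r) ^ K :=
      pow_le_pow_of_le_one (by linarith) (by linarith) hD2
    have h4 : c * (1 - (1 - r) ^ K) ≤ c * (1 - (1 - r) ^ D.card) :=
      mul_le_mul_of_nonneg_left (by linarith) hc0
    linarith
  have hEm : ∀ D ∈ 𝒟, MeasurableSet (clusterIs W B D) := fun D hD =>
    sig_le _ _ (measurableSet_clusterIs W h1B (hDB D hD).1)
  have hNFmeas : ∀ D ∈ 𝒟, MeasurableSet (NF D) := fun D hD => sig_le _ _ (hNFm D hD)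
  have hdisjE : ∀ D D' : Finset Γ, D ≠ D' → Disjoint (clusterIs W B D) (clusterIs W B D') := by
    intro D D' hne
    rw [Set.disjoint_left]
    intro U h1 h2
    apply hne
    have h3 : (D : Set Γ) = (D' : Set Γ) := by
      rw [← (show cluster W (B : Set Γ) U 1 = (D : Set Γ) from h1),
        ← (show cluster W (B : Set Γ) U 1 = (D' : Set Γ) from h2)]
    exact_mod_cast h3
  have hterm : ∀ D ∈ 𝒟, (prob Γ).real (clusterIs W B D) * (1 - q)
      ≤ (prob Γ).real (clusterIs W B D ∩ (NF D)ᶜ) := by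
    intro D hD
    have h1 : (prob Γ).real (clusterIs W B D ∩ (NF D)ᶜ)
        = (prob Γ).real (clusterIs W B D) - (prob Γ).real (clusterIs W B D ∩ NF D) := by
      have := measureReal_inter_add_sdiff₀ (μ := prob Γ) (s := clusterIs W B D) (t := NF D)
        (hNFmeas D hD).nullMeasurableSet
      rw [Set.diff_eq] at this
      linarith
    have h2 : (prob Γ).real (clusterIs W B D ∩ NF D)
        = (prob Γ).real (clusterIs W B D) * (prob Γ).real (NF D) := by
      refine real_inter ?_ (measurableSet_clusterIs W h1B (hDB D hD).1) (hNFm D hD)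
      rw [Set.disjoint_iUnion₂_right]
      intro f hf
      exact disjoint_inside_joinEdges (hDB D hD).1 (hsp f hf) h1B
    rw [h1, h2]
    have h3 := hprobNF D hD
    have h4 : 0 ≤ (prob Γ).real (clusterIs W B D) := measureReal_nonneg
    nlinarith
  have hcover : big W (B : Set Γ) K 1 ⊆ ⋃ D ∈ 𝒟, clusterIs W B D := by
    intro U hU
    have h1 : cluster W (B : Set Γ) U 1 ⊆ (B : Set Γ) :=
      cluster_subset (by exact_mod_cast h1B)
    have h2 : (cluster W (B : Set Γ) U 1).Finite := B.finite_toSet.subset h1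
    refine Set.mem_biUnion (x := h2.toFinset) ?_ ?_
    · simp only [h𝒟, Finset.mem_filter, Finset.mem_powerset, Finset.coe_filter, Set.mem_ofPred_eq]
      refine ⟨fun z hz => ?_, ?_⟩
      · have := h1 (h2.mem_toFinset.mp hz)
        exact_mod_cast this
      · have h3 : (K : ℕ∞) ≤ (cluster W (B : Set Γ) U 1).encard := hU
        rw [h2.encard_eq_coe_toFinset_card] at h3
        exact_mod_cast h3
    · simp [clusterIs]
  have hfinal : (⋃ D ∈ 𝒟, (clusterIs W B D ∩ (NF D)ᶜ))
      ⊆ big (W + ringW S a) Set.univ (2 * K) 1 := by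
    intro U hU
    simp only [Set.mem_iUnion] at hU
    obtain ⟨D, hD, hU1, hU2⟩ := hU
    simp only [hNF, Set.mem_compl_iff, Set.mem_iInter, not_forall, not_not] at hU2
    obtain ⟨f, hf, hj⟩ := hU2
    exact mem_big_of_join hFS hsp h1B (hDB D hD).1 (hDB D hD).2 hU1 hf hj
  have hq1 : q ≤ 1 := by
    have h1 : (prob Γ).real (big W (B : Set Γ) K 1) ≤ 1 := measureReal_le_one
    have h2 : 0 ≤ (1 - r) ^ K := pow_nonneg (by linarith) K
    have h3 : (1 - r) ^ K ≤ 1 := pow_le_one₀ (by linarith) (by linarith)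
    refine pow_le_one₀ ?_ ?_
    · nlinarith
    · nlinarith
  calc (prob Γ).real (big W (B : Set Γ) K 1) * (1 - q)
      ≤ (∑ D ∈ 𝒟, (prob Γ).real (clusterIs W B D)) * (1 - q) := by
        refine mul_le_mul_of_nonneg_right ?_ (by linarith)
        refine (measureReal_mono hcover (measure_ne_top _ _)).trans ?_
        exact measureReal_biUnion_finset_le 𝒟 _
    _ = ∑ D ∈ 𝒟, (prob Γ).real (clusterIs W B D) * (1 - q) := Finset.sum_mul _ _ _
    _ ≤ ∑ D ∈ 𝒟, (prob Γ).real (clusterIs W B D ∩ (NF D)ᶜ) := Finset.sum_le_sum hterm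
    _ = (prob Γ).real (⋃ D ∈ 𝒟, (clusterIs W B D ∩ (NF D)ᶜ)) := by
        refine (measureReal_biUnion_finset ?_ ?_).symm
        · intro D _ D' _ hne
          exact (hdisjE D D' hne).mono Set.inter_subset_left Set.inter_subset_left
        · intro D hD
          exact (hEm D hD).inter (hNFmeas D hD).compl
    _ ≤ _ := measureReal_mono hfinal (measure_ne_top _ _)

end Union

end Pool.Agent.Lib.MP_da416c_pr
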