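import Pool.Agent.Lib.MP_da416c_pr.Step

/-!
# The doubling step, final form
-/

open MeasureTheory ProbabilityTheory
open scoped ENNReal NNReal

namespace Pool.Agent.Lib.MP_da416c_pr

variable {Γ : Type*} [Group Γ]

theorem exists_step [Countable Γ] [Infinite Γ] {W : Sym2 Γ → ℝ≥0} (hW : Inv W) {K : ℕ}
    (hK : 1 ≤ K) {c : ℝ} (hc0 : 0 < c) (hc : c < (prob Γ).real (big W Set.univ K 1))
    {δ : ℝ≥0} (hδ : 0 < δ) :
    ∃ S : Finset Γ, (∀ g ∈ S, g⁻¹ ∈ S) ∧ S.Nonempty ∧ 1 ∉ S ∧
      c * (1 - Real.exp (-(c * K * δ / 4)))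
        < (prob Γ).real (big (W + ringW S (δ / S.card)) Set.univ (2 * K) 1) := by
  classical
  -- a window
  have hc' : ENNReal.ofReal c < prob Γ (big W Set.univ K 1) := by
    rw [ENNReal.ofReal_lt_iff_lt_toReal hc0.le (measure_ne_top _ _)]
    exact hc
  obtain ⟨B, h1B, hB⟩ := exists_window W K 1 hc'
  rw [ENNReal.ofReal_lt_iff_lt_toReal hc0.le (measure_ne_top _ _)] at hB
  have hBc : c < (prob Γ).real (big W (B : Set Γ) K 1) := hB
  -- a sparse set
  set N : ℕ := ⌈(K : ℝ) * δ⌉₊ + 1 with hN
  obtain ⟨F, hcard, hsp, hsp2⟩ := exists_sparse B h1B N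
  set S : Finset Γ := F ∪ F.image (·⁻¹) with hS
  have hFS : F ⊆ S := Finset.subset_union_left
  have hNpos : 0 < N := Nat.succ_pos _
  have hFne : F.Nonempty := by
    rw [← Finset.card_pos, hcard]; exact hNpos
  have hScard1 : N ≤ S.card := hcard ▸ Finset.card_le_card hFS
  have hScard2 : S.card ≤ 2 * N := by
    calc S.card ≤ F.card + (F.image (·⁻¹)).card := Finset.card_union_le _ _
      _ ≤ F.card + F.card := Nat.add_le_add_left Finset.card_image_le _
      _ = 2 * N := by rw [hcard]; ring
  have h1F : (1 : Γ) ∉ F := by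
    intro h
    exact (Finset.disjoint_left.mp (hsp 1 h)) h1B (self_mem_blk h1B 1)
  refine ⟨S, ?_, hFne.mono hFS, ?_, ?_⟩
  · intro g hg
    rw [hS, Finset.mem_union, Finset.mem_image] at hg ⊢
    rcases hg with hg | ⟨f, hf, rfl⟩
    · exact Or.inr ⟨g, hg, rfl⟩
    · rw [inv_inv]
      exact Or.inl hf
  · rw [hS, Finset.mem_union, Finset.mem_image]
    rintro (h | ⟨f, hf, h⟩)
    · exact h1F h
    · rw [inv_eq_one] at h
      exact h1F (h ▸ hf)
  · set a : ℝ≥0 := δ / S.card with ha
    have hstep := step_window hW (S := S) (a := a) h1B hc0.le hBc.le hsp hsp2 hFS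
    rw [hcard] at hstep
    set p := (prob Γ).real (big W (B : Set Γ) K 1) with hp
    have hp1 : p ≤ 1 := measureReal_le_one
    have hc1 : c < 1 := hBc.trans_le hp1
    have hSpos : (0 : ℝ) < S.card := by
      have : 0 < S.card := hNpos.trans_le hScard1
      exact_mod_cast this
    set x : ℝ := K * (δ / S.card) with hx
    have hx0 : 0 < x := by
      have h1 : (0 : ℝ) < K := by exact_mod_cast hK
      have h2 : (0 : ℝ) < δ := by exact_mod_cast hδ
      positivity
    have hx1 : x ≤ 1 := by
      rw [hx, ← mul_div_assoc, div_le_one hSpos]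
      calc (K : ℝ) * δ ≤ ⌈(K : ℝ) * δ⌉₊ := Nat.le_ceil _
        _ ≤ (N : ℝ) := by rw [hN]; push_cast; linarith
        _ ≤ S.card := by exact_mod_cast hScard1
    have hpow : (1 - thr a) ^ K = Real.exp (-x) := by
      have h1 : 1 - thr a = Real.exp (-(a : ℝ)) := by unfold thr; ring
      rw [h1, ← Real.exp_nat_mul, hx, ha]
      congr 1
      push_cast
      ring
    rw [hpow] at hstep
    have hexp : Real.exp (-x) ≤ 1 / (1 + x) := by
      rw [Real.exp_neg, ← one_div]
      apply one_div_le_one_div_of_le (by linarith)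
      have := Real.add_one_le_exp x
      linarith
    have hhalf : x / 2 ≤ 1 - Real.exp (-x) := by
      have h1 : 1 / (1 + x) ≤ 1 - x / 2 := by
        rw [div_le_iff₀ (by linarith)]
        nlinarith
      linarith
    have hexp1 : Real.exp (-x) ≤ 1 := Real.exp_le_one_iff.mpr (by linarith)
    have hbase0 : 0 ≤ 1 - c * (1 - Real.exp (-x)) := by
      have := Real.exp_pos (-x)
      nlinarith
    have hq : (1 - c * (1 - Real.exp (-x))) ^ N ≤ Real.exp (-(c * K * δ / 4)) := by
      have h1 : 1 - c * (1 - Real.exp (-x)) ≤ Real.exp (-(c * (1 - Real.exp (-x)))) := by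
        have := Real.add_one_le_exp (-(c * (1 - Real.exp (-x))))
        linarith
      calc (1 - c * (1 - Real.exp (-x))) ^ N
          ≤ Real.exp (-(c * (1 - Real.exp (-x)))) ^ N := pow_le_pow_left₀ hbase0 h1 N
        _ = Real.exp (N * -(c * (1 - Real.exp (-x)))) := (Real.exp_nat_mul _ N).symm
        _ ≤ Real.exp (-(c * K * δ / 4)) := by
            apply Real.exp_le_exp.mpr
            have hNx : (K : ℝ) * δ / 2 ≤ N * x := by
              rw [hx]
              have h3 : (S.card : ℝ) ≤ 2 * N := by exact_mod_cast hScard2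
              have h4 : (0 : ℝ) ≤ K * δ := by positivity
              rw [← mul_div_assoc, ← mul_div_assoc, le_div_iff₀ hSpos]
              nlinarith
            have hNpos' : (0 : ℝ) < N := by exact_mod_cast hNpos
            have h5 : N * (x / 2) ≤ N * (1 - Real.exp (-x)) :=
              mul_le_mul_of_nonneg_left hhalf hNpos'.le
            have h6 : c * (K * δ / 4) ≤ c * (N * (1 - Real.exp (-x))) :=
              mul_le_mul_of_nonneg_left (by linarith) hc0.le
            linarith
    have hKδ : 0 < c * K * δ / 4 := by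
      have h1 : (0 : ℝ) < K := by exact_mod_cast hK
      have h2 : (0 : ℝ) < δ := by exact_mod_cast hδ
      positivity
    have hlt : 0 < 1 - Real.exp (-(c * K * δ / 4)) := by
      have : Real.exp (-(c * K * δ / 4)) < 1 := Real.exp_lt_one_iff.mpr (by linarith)
      linarith
    calc c * (1 - Real.exp (-(c * K * δ / 4))) < p * (1 - Real.exp (-(c * K * δ / 4))) :=
          mul_lt_mul_of_pos_right hBc hlt
      _ ≤ p * (1 - (1 - c * (1 - Real.exp (-x))) ^ N) := by
          refine mul_le_mul_of_nonneg_left ?_ (by linarith)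
          linarith
      _ ≤ _ := hstep

end Pool.Agent.Lib.MP_da416c_pr
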