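import Pool.Agent.Lib.MP_da416c_pr.Space

/-!
# Translation invariance and invariant edge weights
-/

open MeasureTheory ProbabilityTheory
open scoped ENNReal NNReal

namespace Pool.Agent.Lib.MP_da416c_pr

variable {Γ : Type*} [Group Γ]

/-- Left translation on unordered pairs. -/
def tr (g : Γ) : Sym2 Γ → Sym2 Γ := Sym2.map (g * ·)

@[simp] theorem tr_mk (g x y : Γ) : tr g s(x, y) = s(g * x, g * y) := rfl

theorem tr_injective (g : Γ) : Function.Injective (tr g) :=
  Sym2.map.injective (mul_right_injective g)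

/-- Invariance of edge weights under left translations. -/
def Inv (W : Sym2 Γ → ℝ≥0) : Prop := ∀ g e, W (tr g e) = W e

theorem map_tr (g : Γ) : (prob Γ).map (fun U e => U (tr g e)) = prob Γ :=
  Measure.map_infinitePi_infinitePi_of_inj (P := fun _ : Sym2 Γ => unif) (tr_injective g)

theorem openGraph_tr_adj {W : Sym2 Γ → ℝ≥0} (hW : Inv W) (B : Set Γ) (U : Cfg Γ) (g x y : Γ) :
    (openGraph W ((g * ·) '' B) U).Adj (g * x) (g * y)
      ↔ (openGraph W B (fun e => U (tr g e))).Adj x y := by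
  rw [openGraph_adj, openGraph_adj, mk_mem_inside, mk_mem_inside, ← tr_mk g x y, hW]
  simp

/-- Translation as an isomorphism of open graphs. -/
def trIso {W : Sym2 Γ → ℝ≥0} (hW : Inv W) (B : Set Γ) (U : Cfg Γ) (g : Γ) :
    (openGraph W B (fun e => U (tr g e))) ≃g (openGraph W ((g * ·) '' B) U) where
  toEquiv := Equiv.mulLeft g
  map_rel_iff' := by
    intro x y
    exact openGraph_tr_adj hW B U g x y

theorem cluster_tr {W : Sym2 Γ → ℝ≥0} (hW : Inv W) (B : Set Γ) (U : Cfg Γ) (g x : Γ) :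
    cluster W ((g * ·) '' B) U (g * x) = (g * ·) '' cluster W B (fun e => U (tr g e)) x := by
  ext z
  obtain ⟨y, rfl⟩ : ∃ y, z = g * y := ⟨g⁻¹ * z, by group⟩
  have h := (trIso hW B U g).reachable_iff (u := x) (v := y)
  have h1 : (trIso hW B U g) x = g * x := rfl
  have h2 : (trIso hW B U g) y = g * y := rfl
  rw [h1, h2] at h
  simp only [cluster, Set.mem_ofPred_eq, Set.mem_image, mul_right_inj, exists_eq_right]
  exact h

theorem mem_big_tr {W : Sym2 Γ → ℝ≥0} (hW : Inv W) (B : Set Γ) (K : ℕ) (g x : Γ) (U : Cfg Γ) :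
    U ∈ big W ((g * ·) '' B) K (g * x) ↔ (fun e => U (tr g e)) ∈ big W B K x := by
  simp only [big, Set.mem_ofPred_eq, cluster_tr hW]
  rw [(mul_right_injective g).injOn.encard_image]

theorem prob_big_tr [Countable Γ] {W : Sym2 Γ → ℝ≥0} (hW : Inv W) (B : Set Γ) (K : ℕ) (g x : Γ) :
    prob Γ (big W ((g * ·) '' B) K (g * x)) = prob Γ (big W B K x) := by
  have h : Measurable (fun (U : Cfg Γ) (e : Sym2 Γ) => U (tr g e)) := by fun_prop
  have h1 : big W ((g * ·) '' B) K (g * x)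
      = (fun (U : Cfg Γ) (e : Sym2 Γ) => U (tr g e)) ⁻¹' (big W B K x) := by
    ext U
    exact mem_big_tr hW B K g x U
  rw [h1, ← Measure.map_apply h (measurableSet_big W B K x), map_tr]

/-- The weight `a` on all edges `s(x, x f)` with `f ∈ F`. -/
noncomputable def ringW (F : Finset Γ) (a : ℝ≥0) : Sym2 Γ → ℝ≥0 :=
  open Classical in
  Sym2.lift ⟨fun x y => if x⁻¹ * y ∈ F ∨ y⁻¹ * x ∈ F then a else 0, fun _ _ =>
    if_congr or_comm rfl rfl⟩

theorem ringW_mk [DecidableEq Γ] (F : Finset Γ) (a : ℝ≥0) (x y : Γ) :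
    ringW F a s(x, y) = if x⁻¹ * y ∈ F ∨ y⁻¹ * x ∈ F then a else 0 := by
  unfold ringW
  rw [Sym2.lift_mk]
  by_cases h : x⁻¹ * y ∈ F ∨ y⁻¹ * x ∈ F <;> simp [h]

theorem inv_ringW (F : Finset Γ) (a : ℝ≥0) : Inv (ringW F a) := by
  classical
  intro g e
  induction e with
  | _ x y =>
    rw [tr_mk, ringW_mk, ringW_mk]
    have h1 : (g * x)⁻¹ * (g * y) = x⁻¹ * y := by group
    have h2 : (g * y)⁻¹ * (g * x) = y⁻¹ * x := by group
    rw [h1, h2]

theorem Inv.add {W W' : Sym2 Γ → ℝ≥0} (h : Inv W) (h' : Inv W') : Inv (W + W') := by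
  intro g e
  simp [h g e, h' g e]

end Pool.Agent.Lib.MP_da416c_pr
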