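import Pool.Agent.Lib.MP_da416c_pr.Base
import Pool.Agent.Lib.MP_da416c_pr.Link

/-!
# Construction of a good generating measure: the upper bound `λ_c(Γ) ≤ 1`
-/

open MeasureTheory ProbabilityTheory Filter Topology
open scoped ENNReal NNReal

namespace Pool.Agent.Lib.MP_da416c_pr

variable {Γ : Type*} [Group Γ]

/-- A finite symmetric nonempty set not containing `1`. -/
def Good (S : Finset Γ) : Prop := (∀ g ∈ S, g⁻¹ ∈ S) ∧ S.Nonempty ∧ 1 ∉ S

/-- Partial sums of the weights. -/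
noncomputable def partW (l₁ : ℝ≥0) (δ : ℕ → ℝ≥0) (S₀ : Finset Γ) (T : ℕ → Finset Γ) :
    ℕ → Sym2 Γ → ℝ≥0
  | 0 => ringW S₀ (l₁ / S₀.card)
  | n + 1 => partW l₁ δ S₀ T n + ringW (T n) (δ n / (T n).card)

theorem exists_sets [Countable Γ] [Infinite Γ] {l₁ κ : ℝ≥0} (hl₁ : 1 < l₁) (hκ : 0 < κ) :
    ∃ (c : ℝ) (K : ℕ) (S₀ : Finset Γ) (T : ℕ → Finset Γ), 0 < c ∧ 1 ≤ K ∧ Good S₀ ∧
      (∀ n, Good (T n)) ∧ ∀ n,
        c / 2 < (prob Γ).real (big (partW l₁ (fun n => κ / 4 * (3 / 4) ^ n) S₀ T n)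
          Set.univ (2 ^ n * K) 1) := by
  classical
  have hl₁' : (1 : ℝ) < l₁ := by exact_mod_cast hl₁
  have hκ' : (0 : ℝ) < κ := by exact_mod_cast hκ
  set c : ℝ := 1 - 1 / l₁ with hc
  have hc0 : 0 < c := by
    have : 1 / (l₁ : ℝ) < 1 := by rw [div_lt_one (by linarith)]; exact hl₁'
    linarith
  obtain ⟨K₁, hK₁⟩ := exists_nat_ge (64 / (c * κ))
  set K : ℕ := K₁ + 1 with hK
  have hKge : 64 / (c * κ) ≤ (K : ℝ) := hK₁.trans (by rw [hK]; push_cast; linarith)
  have hKge' : 64 ≤ c * K * κ := by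
    rw [div_le_iff₀ (by positivity)] at hKge
    linarith
  set δ : ℕ → ℝ≥0 := fun n => κ / 4 * (3 / 4) ^ n with hδ
  set cc : ℕ → ℝ := fun n => c * (1 / 2 + (1 / 2) ^ (n + 1)) with hcc
  have hcc_pos : ∀ n, 0 < cc n := fun n => by simp only [hcc]; positivity
  have hcc_half : ∀ n, c / 2 < cc n := fun n => by
    simp only [hcc]
    have : (0 : ℝ) < (1 / 2) ^ (n + 1) := by positivity
    nlinarith
  have hcc_le : ∀ n, cc n ≤ c := fun n => by
    simp only [hcc]
    have : ((1 : ℝ) / 2) ^ (n + 1) ≤ 1 / 2 := by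
      rw [pow_succ]
      have h1 : ((1 : ℝ) / 2) ^ n ≤ 1 := pow_le_one₀ (by norm_num) (by norm_num)
      linarith
    nlinarith
  -- one step
  have step : ∀ (n : ℕ) (W : Sym2 Γ → ℝ≥0), Inv W →
      cc n < (prob Γ).real (big W Set.univ (2 ^ n * K) 1) →
      ∃ S : Finset Γ, Good S ∧
        cc (n + 1) < (prob Γ).real (big (W + ringW S (δ n / S.card))
          Set.univ (2 ^ (n + 1) * K) 1) := by
    intro n W hW h
    have hKn : 1 ≤ 2 ^ n * K := Nat.one_le_iff_ne_zero.mpr (by positivity)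
    have hδn : 0 < δ n := by simp only [hδ]; positivity
    obtain ⟨S, h1, h2, h3, h4⟩ := exists_step hW hKn (hcc_pos n) h hδn
    refine ⟨S, ⟨h1, h2, h3⟩, ?_⟩
    have e1 : 2 ^ (n + 1) * K = 2 * (2 ^ n * K) := by ring
    rw [e1]
    refine lt_of_le_of_lt ?_ h4
    -- numerical estimate
    set X : ℝ := cc n * ((2 ^ n * K : ℕ) : ℝ) * (δ n) / 4 with hX
    have hX1 : (n : ℝ) + 2 ≤ X := by
      have h5 : (δ n : ℝ) = κ / 4 * (3 / 4) ^ n := by simp only [hδ]; push_cast; ring
      have h6 : (c / 2) * (2 ^ n * K) * (κ / 4 * (3 / 4) ^ n) / 4 ≤ X := by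
        rw [hX, h5]
        push_cast
        have h7 := (hcc_half n).le
        have h8 : 0 ≤ (2 : ℝ) ^ n * K * (κ / 4 * (3 / 4) ^ n) / 4 := by positivity
        nlinarith
      have h9 : (c / 2) * (2 ^ n * K) * (κ / 4 * (3 / 4) ^ n) / 4
          = (c * K * κ / 32) * (3 / 2) ^ n := by
        have : ((3 : ℝ) / 2) ^ n = 2 ^ n * (3 / 4) ^ n := by
          rw [← mul_pow]; norm_num
        rw [this]; ring
      have h10 : 1 + (n : ℝ) * (1 / 2) ≤ (3 / 2 : ℝ) ^ n := by
        have := one_add_mul_le_pow (a := (1 / 2 : ℝ)) (by norm_num) n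
        norm_num at this ⊢
        exact this
      rw [h9] at h6
      have h11 : 2 ≤ c * K * κ / 32 := by linarith
      have h12 : (0 : ℝ) < (3 / 2) ^ n := by positivity
      nlinarith
    have hexp : Real.exp (-X) ≤ (1 / 2) ^ (n + 2) := by
      have h13 : Real.exp (-X) ≤ Real.exp (-((n : ℝ) + 2)) := Real.exp_le_exp.mpr (by linarith)
      have h14 : Real.exp (-((n : ℝ) + 2)) = Real.exp (-1) ^ (n + 2) := by
        rw [← Real.exp_nat_mul]
        congr 1
        push_cast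
        ring
      have h15 : Real.exp (-1) ≤ 1 / 2 := by
        rw [Real.exp_neg, ← one_div]
        apply one_div_le_one_div_of_le (by norm_num)
        have := Real.add_one_le_exp (1 : ℝ)
        linarith
      rw [h14] at h13
      exact h13.trans (pow_le_pow_left₀ (Real.exp_pos _).le h15 _)
    have h16 : cc n * Real.exp (-X) ≤ c * (1 / 2) ^ (n + 2) :=
      mul_le_mul (hcc_le n) hexp (Real.exp_pos _).le hc0.le
    have h17 : cc n - cc (n + 1) = c * (1 / 2) ^ (n + 2) := by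
      simp only [hcc]
      rw [pow_succ (1 / 2 : ℝ) (n + 1)]
      ring
    have h18 : cc n * (1 - Real.exp (-X)) = cc n - cc n * Real.exp (-X) := by ring
    rw [h18]
    linarith
  -- first scale
  obtain ⟨S₀, hS1, hS2, hS3, hS4⟩ := exists_base (Γ := Γ) hl₁ K
  choose! Sf hSf using step
  -- recursion
  let Wn : ℕ → Sym2 Γ → ℝ≥0 := fun n => Nat.rec (ringW S₀ (l₁ / S₀.card))
    (fun n W => W + ringW (Sf n W) (δ n / (Sf n W).card)) n
  have hWsucc : ∀ n, Wn (n + 1) = Wn n + ringW (Sf n (Wn n)) (δ n / (Sf n (Wn n)).card) :=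
    fun n => rfl
  have hinv : ∀ n, Inv (Wn n) := by
    intro n
    induction n with
    | zero => exact inv_ringW _ _
    | succ n ih => rw [hWsucc]; exact ih.add (inv_ringW _ _)
  have hmain : ∀ n, cc n < (prob Γ).real (big (Wn n) Set.univ (2 ^ n * K) 1) := by
    intro n
    induction n with
    | zero =>
      have h1 : cc 0 = c := by simp only [hcc]; ring
      rw [h1, pow_zero, one_mul]
      exact hS4
    | succ n ih =>
      rw [hWsucc]
      exact (hSf n (Wn n) (hinv n) ih).2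
  refine ⟨c, K, S₀, fun n => Sf n (Wn n), hc0, Nat.succ_le_succ (Nat.zero_le _), ⟨hS1, hS2, hS3⟩,
    fun n => (hSf n (Wn n) (hinv n) (hmain n)).1, fun n => ?_⟩
  have hpart : ∀ n, partW l₁ δ S₀ (fun n => Sf n (Wn n)) n = Wn n := by
    intro n
    induction n with
    | zero => rfl
    | succ n ih => rw [partW, ih, hWsucc]
  rw [hpart]
  exact (hcc_half n).trans (hmain n)

/-- If the clusters of `1` at weight `W` have size at least `2 ^ n * K` with probability more than
`c / 2` for every `n`, an infinite cluster exists with positive probability. -/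
theorem prob_infinite_pos [Countable Γ] {W : Sym2 Γ → ℝ≥0} {c : ℝ} (hc : 0 < c) {K : ℕ}
    (hK : 1 ≤ K) (h : ∀ n, c / 2 < (prob Γ).real (big W Set.univ (2 ^ n * K) 1)) :
    0 < prob Γ {U | HasInfiniteComponent (openGraph W Set.univ U)} := by
  have hanti : Antitone fun n : ℕ => big W (Set.univ : Set Γ) (2 ^ n * K) 1 := by
    intro m n hmn
    exact big_mono (fun _ _ => le_rfl) le_rfl
      (Nat.mul_le_mul_right _ (Nat.pow_le_pow_right (by norm_num) hmn)) 1
  have h1 : prob Γ (⋂ n, big W (Set.univ : Set Γ) (2 ^ n * K) 1)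
      = ⨅ n, prob Γ (big W (Set.univ : Set Γ) (2 ^ n * K) 1) :=
    hanti.measure_iInter (fun n => (measurableSet_big W _ _ 1).nullMeasurableSet)
      ⟨0, measure_ne_top _ _⟩
  have h2 : ENNReal.ofReal (c / 2) ≤ ⨅ n, prob Γ (big W (Set.univ : Set Γ) (2 ^ n * K) 1) := by
    refine le_iInf fun n => ?_
    rw [ENNReal.ofReal_le_iff_le_toReal (measure_ne_top _ _)]
    exact (h n).le
  have h3 : 0 < ENNReal.ofReal (c / 2) := ENNReal.ofReal_pos.mpr (by positivity)
  refine lt_of_lt_of_le h3 ((h2.trans h1.ge).trans (measure_mono ?_))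
  intro U hU
  show HasInfiniteComponent _
  rw [hasInfiniteComponent_iff]
  refine ⟨1, fun hfin => ?_⟩
  have h4 : ∀ n : ℕ, ((2 ^ n * K : ℕ) : ℕ∞) ≤ (cluster W Set.univ U 1).encard :=
    fun n => Set.mem_iInter.mp hU n
  have hfin' : (cluster W Set.univ U 1).Finite := hfin
  rw [hfin'.encard_eq_coe_toFinset_card] at h4
  have h5 := h4 hfin'.toFinset.card
  have h6 : 2 ^ hfin'.toFinset.card * K ≤ hfin'.toFinset.card := by exact_mod_cast h5
  have h7 : hfin'.toFinset.card < 2 ^ hfin'.toFinset.card := Nat.lt_two_pow_self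
  nlinarith

end Pool.Agent.Lib.MP_da416c_pr
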