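import Pool.Agent.Lib.MP_da416c_pr.Upper

/-!
# The upper bound `λ_c(Γ) ≤ 1`
-/

open MeasureTheory ProbabilityTheory Filter Topology
open scoped ENNReal NNReal

namespace Pool.Agent.Lib.MP_da416c_pr

variable {Γ : Type*} [Group Γ]

/-- A symmetric probability mass function with full support. -/
theorem exists_full [Countable Γ] :
    ∃ m : PMF Γ, (∀ g, m g⁻¹ = m g) ∧ ∀ g, m g ≠ 0 := by
  obtain ⟨f, hf, c, hc, -⟩ := NNReal.exists_pos_sum_of_countable (one_ne_zero) Γ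
  set u : Γ → ℝ≥0∞ := fun g => f g + f g⁻¹ with hu
  have hsum : ∑' g, u g ≠ ∞ := by
    have h1 : ∑' g, (f g : ℝ≥0∞) = c := by
      rw [← ENNReal.coe_tsum hc.summable, hc.tsum_eq]
    have h2 : ∑' g : Γ, (f g⁻¹ : ℝ≥0∞) = c := by
      rw [← h1]
      exact (Equiv.inv Γ).tsum_eq fun g => (f g : ℝ≥0∞)
    rw [hu, ENNReal.tsum_add, h1, h2]
    exact ENNReal.add_ne_top.mpr ⟨ENNReal.coe_ne_top, ENNReal.coe_ne_top⟩
  have hpos : ∀ g, u g ≠ 0 := by
    intro g h
    simp only [hu, add_eq_zero, ENNReal.coe_eq_zero] at h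
    exact (hf g).ne' h.1
  have hne : ∑' g, u g ≠ 0 := by
    intro h
    exact hpos 1 (ENNReal.tsum_eq_zero.mp h 1)
  refine ⟨PMF.normalize u hne hsum, fun g => ?_, fun g => ?_⟩
  · rw [PMF.normalize_apply, PMF.normalize_apply]
    congr 1
    simp only [hu, inv_inv]
    exact add_comm _ _
  · rw [PMF.normalize_apply]
    exact mul_ne_zero (hpos g) (ENNReal.inv_ne_zero.mpr hsum)

open Classical in
/-- The function equal to `a` on `S` and to zero elsewhere. -/
noncomputable def onSet (S : Finset Γ) (a : ℝ≥0) (g : Γ) : ℝ≥0∞ := if g ∈ S then (a : ℝ≥0∞) else 0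

omit [Group Γ] in
theorem tsum_onSet {S : Finset Γ} (hS : S.Nonempty) (a : ℝ≥0) :
    ∑' g, onSet S (a / S.card) g = a := by
  classical
  rw [tsum_eq_sum (s := S) fun g hg => by simp [onSet, hg]]
  rw [Finset.sum_congr rfl fun g hg => by rw [onSet, if_pos hg], Finset.sum_const, nsmul_eq_mul]
  have h : (S.card : ℝ≥0) ≠ 0 := by
    have := hS.card_pos
    positivity
  have h2 : (S.card : ℝ≥0) * (a / S.card) = a := by field_simp
  exact_mod_cast congrArg (fun x : ℝ≥0 => (x : ℝ≥0∞)) h2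

theorem onSet_inv {S : Finset Γ} (hS : ∀ g ∈ S, g⁻¹ ∈ S) (a : ℝ≥0) (g : Γ) :
    onSet S a g⁻¹ = onSet S a g := by
  classical
  unfold onSet
  have : g⁻¹ ∈ S ↔ g ∈ S := ⟨fun h => by simpa using hS _ h, fun h => hS _ h⟩
  simp only [this]

theorem ringW_eq_onSet {S : Finset Γ} (hS : ∀ g ∈ S, g⁻¹ ∈ S) (a : ℝ≥0) (g h : Γ) :
    (ringW S a s(g, h) : ℝ≥0∞) = onSet S a (g⁻¹ * h) := by
  classical
  rw [ringW_mk, onSet]
  have h1 : h⁻¹ * g ∈ S ↔ g⁻¹ * h ∈ S := by
    constructor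
    · intro h2
      have := hS _ h2
      rwa [mul_inv_rev, inv_inv] at this
    · intro h2
      have := hS _ h2
      rwa [mul_inv_rev, inv_inv] at this
  simp only [h1, or_self]
  split_ifs <;> simp

theorem partW_eq {l₁ : ℝ≥0} {δ : ℕ → ℝ≥0} {S₀ : Finset Γ} {T : ℕ → Finset Γ} (hS₀ : Good S₀)
    (hT : ∀ n, Good (T n)) (n : ℕ) (g h : Γ) :
    (partW l₁ δ S₀ T n s(g, h) : ℝ≥0∞) = onSet S₀ (l₁ / S₀.card) (g⁻¹ * h)
      + ∑ k ∈ Finset.range n, onSet (T k) (δ k / (T k).card) (g⁻¹ * h) := by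
  induction n with
  | zero => simp [partW, ringW_eq_onSet hS₀.1]
  | succ n ih =>
    rw [partW, Pi.add_apply, ENNReal.coe_add, ih, Finset.sum_range_succ,
      ringW_eq_onSet (hT n).1, add_assoc]

theorem tsum_delta (κ : ℝ≥0) :
    ∑' n : ℕ, ((κ / 4 * (3 / 4) ^ n : ℝ≥0) : ℝ≥0∞) = κ := by
  have h1 : HasSum (fun n : ℕ => κ / 4 * (3 / 4) ^ n) κ := by
    have h2 : HasSum (fun n : ℕ => ((3 : ℝ) / 4) ^ n) (1 - 3 / 4)⁻¹ :=
      hasSum_geometric_of_lt_one (by norm_num) (by norm_num)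
    have h3 : HasSum (fun n : ℕ => (κ : ℝ) / 4 * (3 / 4) ^ n) κ := by
      have h4 := h2.mul_left ((κ : ℝ) / 4)
      have h5 : (κ : ℝ) / 4 * (1 - 3 / 4)⁻¹ = κ := by norm_num
      rwa [h5] at h4
    rw [← NNReal.hasSum_coe]
    convert h3 using 1
    funext n
    push_cast
    ring
  rw [← ENNReal.coe_tsum h1.summable, h1.tsum_eq]

/-- For every `l > 1` some generating measure has infinite clusters for all parameters `≥ l`. -/
theorem exists_measure [Countable Γ] [Infinite Γ] {l : ℝ≥0} (hl : 1 < l) :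
    ∃ μ : GeneratingMeasure Γ, ∀ l' : ℝ≥0, l ≤ l' →
      edgeLaw μ l' {N | HasInfiniteComponent (toGraph N)} ≠ 0 := by
  set l₁ : ℝ≥0 := (1 + l) / 2 with hl₁
  set κ : ℝ≥0 := (l - 1) / 4 with hκ
  have hκpos : 0 < κ := by
    have : 0 < l - 1 := tsub_pos_of_lt hl
    positivity
  have hl₁gt : 1 < l₁ := by
    have h1 : (1 : ℝ) < l := by exact_mod_cast hl
    have h2 : (1 : ℝ) < l₁ := by rw [hl₁]; push_cast; linarith
    exact_mod_cast h2
  have htot : l₁ + κ + κ = l := by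
    have h1 : (1 : ℝ) ≤ l := by exact_mod_cast hl.le
    have h2 : ((l₁ + κ + κ : ℝ≥0) : ℝ) = l := by
      rw [hl₁, hκ]
      push_cast [NNReal.coe_sub hl.le]
      ring
    exact_mod_cast h2
  obtain ⟨c, K, S₀, T, hc, hK, hS₀, hT, hbig⟩ := exists_sets (Γ := Γ) hl₁gt hκpos
  obtain ⟨m, hm1, hm2⟩ := exists_full (Γ := Γ)
  set δ : ℕ → ℝ≥0 := fun n => κ / 4 * (3 / 4) ^ n with hδ
  set dens : Γ → ℝ≥0∞ := fun g => onSet S₀ (l₁ / S₀.card) g
    + ∑' k, onSet (T k) (δ k / (T k).card) g + κ * m g with hdens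
  have hdsum : ∑' g, dens g = l := by
    rw [hdens, ENNReal.tsum_add, ENNReal.tsum_add, tsum_onSet hS₀.2.1, ENNReal.tsum_comm,
      ENNReal.tsum_mul_left, m.tsum_coe, mul_one]
    have h1 : ∑' k, ∑' g, onSet (T k) (δ k / (T k).card) g = κ := by
      rw [← tsum_delta κ]
      exact tsum_congr fun k => tsum_onSet (hT k).2.1 _
    rw [h1, ← ENNReal.coe_add, ← ENNReal.coe_add, htot]
  have hdsymm : ∀ g, dens g⁻¹ = dens g := by
    intro g
    simp only [hdens]
    rw [onSet_inv hS₀.1, hm1]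
    congr 2
    exact tsum_congr fun k => onSet_inv (hT k).1 _ _
  have hl0 : (l : ℝ≥0∞) ≠ 0 := by
    have : l ≠ 0 := (zero_lt_one.trans hl).ne'
    exact_mod_cast this
  have hltop : (l : ℝ≥0∞) ≠ ∞ := ENNReal.coe_ne_top
  have hdtop : ∀ g, dens g ≠ ∞ := fun g => ne_top_of_le_ne_top (by rw [hdsum]; exact hltop)
    (ENNReal.le_tsum g)
  have hHS : HasSum (fun g => dens g / l) 1 := by
    have h1 : ∑' g, dens g / (l : ℝ≥0∞) = 1 := by
      simp_rw [div_eq_mul_inv]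
      rw [ENNReal.tsum_mul_right, hdsum, ENNReal.mul_inv_cancel hl0 hltop]
    rw [← h1]
    exact ENNReal.summable.hasSum
  let p : PMF Γ := ⟨fun g => dens g / l, hHS⟩
  have hp : ∀ g, p g = dens g / l := fun g => rfl
  let μ : GeneratingMeasure Γ := ⟨p, fun g => by rw [hp, hp, hdsymm], by
    have h1 : p.support = Set.univ := by
      ext g
      simp only [PMF.mem_support_iff, Set.mem_univ, iff_true]
      rw [hp]
      have h2 : dens g ≠ 0 := by
        simp only [hdens]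
        intro h3
        rw [add_eq_zero] at h3
        have h4 := h3.2
        rw [mul_eq_zero] at h4
        rcases h4 with h4 | h4
        · rw [ENNReal.coe_eq_zero] at h4
          exact hκpos.ne' h4
        · exact hm2 g h4
      exact ENNReal.div_ne_zero.mpr ⟨h2, hltop⟩
    rw [h1]
    exact Subgroup.closure_univ⟩
  refine ⟨μ, fun l' hl' => ?_⟩
  have hle : ∀ n e, partW l₁ δ S₀ T n e ≤ edgeMean μ l' e := by
    intro n e
    induction e with
    | _ g h =>
      have h1 : (partW l₁ δ S₀ T n s(g, h) : ℝ≥0∞) ≤ dens (g⁻¹ * h) := by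
        rw [partW_eq hS₀ hT]
        simp only [hdens]
        refine le_trans ?_ le_self_add
        gcongr
        exact ENNReal.sum_le_tsum _
      have h2 : edgeMean μ l' s(g, h) = l' * (dens (g⁻¹ * h) / l).toNNReal := rfl
      have h3 : (partW l₁ δ S₀ T n s(g, h) : ℝ≥0∞) ≤ (edgeMean μ l' s(g, h) : ℝ≥0) := by
        rw [h2, ENNReal.coe_mul, ENNReal.coe_toNNReal
          (ENNReal.div_ne_top (hdtop _) hl0)]
        calc (partW l₁ δ S₀ T n s(g, h) : ℝ≥0∞) ≤ dens (g⁻¹ * h) := h1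
          _ = l * (dens (g⁻¹ * h) / l) := (ENNReal.mul_div_cancel hl0 hltop).symm
          _ ≤ l' * (dens (g⁻¹ * h) / l) := by gcongr
      exact_mod_cast h3
  rw [edgeLaw_eq]
  refine (prob_infinite_pos hc hK fun n => ?_).ne'
  refine (hbig n).trans_le (measureReal_mono ?_ (measure_ne_top _ _))
  exact big_mono (fun e _ => hle n e) le_rfl le_rfl 1

theorem percThreshold_le_one [Countable Γ] [Infinite Γ] : percThreshold Γ ≤ 1 := by
  refine ENNReal.le_of_forall_pos_le_add fun ε hε _ => ?_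
  have hl : (1 : ℝ≥0) < 1 + ε := lt_add_of_pos_right 1 hε
  obtain ⟨μ, hμ⟩ := exists_measure (Γ := Γ) hl
  refine (iInf_le _ μ).trans ?_
  refine sSup_le ?_
  rintro x ⟨l', _, h0, rfl⟩
  by_contra h
  rw [not_le] at h
  have h1 : 1 + ε ≤ l' := by
    have : ((1 + ε : ℝ≥0) : ℝ≥0∞) < l' := by push_cast; exact h
    exact (by exact_mod_cast this.le)
  exact hμ l' h1 h0

end Pool.Agent.Lib.MP_da416c_pr
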